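import Mathlib

set_option autoImplicit false

open MvPolynomial Topology

namespace Pool.Agent.Results.MP_9e47d4_ag.EveryComponentMeets

/-! ## The Zariski topology of a projectivization -/

section Zariski

variable (V : Type) [AddCommGroup V] [Module ℂ V]

/-- The algebra of polynomial functions on the complex vector space `V`: the algebra of functions
generated by the linear forms. -/
noncomputable def polyFun : Subalgebra ℂ (V → ℂ) :=
  Algebra.adjoin ℂ (Set.range fun l : Module.Dual ℂ V => (l : V → ℂ))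

variable {V}

/-- A function on `V` is homogeneous of degree `n`. -/
def IsHomog (f : V → ℂ) (n : ℕ) : Prop := ∀ (c : ℂ) (v : V), f (c • v) = c ^ n * f v

/-- The set of points of the projectivization at which all members of `S` vanish. -/
def zeroLocus (S : Set (V → ℂ)) : Set (Projectivization ℂ V) := {x | ∀ f ∈ S, f x.rep = 0}

/-- Zariski closed subsets of the projectivization: common zero sets of families of
homogeneous polynomial functions. -/
def IsAlgebraic (Z : Set (Projectivization ℂ V)) : Prop :=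
  ∃ S : Set (V → ℂ), (∀ f ∈ S, f ∈ polyFun V ∧ ∃ n : ℕ, IsHomog f n) ∧ Z = zeroLocus S

/-- The Zariski closure. -/
def zariskiClosure (Z : Set (Projectivization ℂ V)) : Set (Projectivization ℂ V) :=
  ⋂₀ {W | IsAlgebraic W ∧ Z ⊆ W}

/-- Irreducible Zariski closed sets. -/
def IsIrreducibleAlgebraic (Z : Set (Projectivization ℂ V)) : Prop :=
  IsAlgebraic Z ∧ Z.Nonempty ∧
    ∀ Z₁ Z₂ : Set (Projectivization ℂ V), IsAlgebraic Z₁ → IsAlgebraic Z₂ →
      Z ⊆ Z₁ ∪ Z₂ → Z ⊆ Z₁ ∨ Z ⊆ Z₂

/-- `Z` is an irreducible component of `M`: a maximal irreducible Zariski closed set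
contained in `M`. -/
def IsComponent (M Z : Set (Projectivization ℂ V)) : Prop :=
  Z ⊆ M ∧ IsIrreducibleAlgebraic Z ∧
    ∀ Z' : Set (Projectivization ℂ V), IsIrreducibleAlgebraic Z' → Z ⊆ Z' → Z' ⊆ M → Z' = Z

end Zariski

/-! ## Foliations of the plane given by polynomial 1-forms -/

/-- Polynomials in the two complex variables `x = X 0` and `y = X 1`. -/
abbrev Poly : Type := MvPolynomial (Fin 2) ℂ

/-- A polynomial 1-form `ω = P dy - Q dx` on `ℂ²`, stored as the pair `(P, Q)`. -/
abbrev Form : Type := Poly × Poly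

/-- The space of polynomial 1-forms `P dy - Q dx` with `deg P, deg Q ≤ d`. -/
noncomputable def forms (d : ℕ) : Submodule ℂ Form :=
  (restrictTotalDegree (Fin 2) ℂ d).prod (restrictTotalDegree (Fin 2) ℂ d)

/-- The projectivization of `forms d`. -/
abbrev Fol (d : ℕ) : Type := Projectivization ℂ (forms d)

/-- `p` is a center of the foliation `P dy - Q dx = 0`: a common zero of `P` and `Q` with
`P_x Q_y - P_y Q_x ≠ 0` at `p`, such that there are local holomorphic coordinates `(x', y')`
centred at `p` (functions analytic at `p`, vanishing at `p`, with nonzero Jacobian determinant)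
with `ω ∧ d(x'² + y'²) = 0` near `p`, i.e. `P g_x + Q g_y = 0` near `p` for
`g = x'² + y'²`. -/
structure IsCenter (ω : Form) (p : Fin 2 → ℂ) : Prop where
  zero_fst : eval p ω.1 = 0
  zero_snd : eval p ω.2 = 0
  reduced : eval p (pderiv 0 ω.1) * eval p (pderiv 1 ω.2)
    - eval p (pderiv 1 ω.1) * eval p (pderiv 0 ω.2) ≠ 0
  coords : ∃ x' y' : (Fin 2 → ℂ) → ℂ, AnalyticAt ℂ x' p ∧ AnalyticAt ℂ y' p ∧
    x' p = 0 ∧ y' p = 0 ∧
    fderiv ℂ x' p (Pi.single 0 1) * fderiv ℂ y' p (Pi.single 1 1)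
      - fderiv ℂ x' p (Pi.single 1 1) * fderiv ℂ y' p (Pi.single 0 1) ≠ 0 ∧
    ∀ᶠ z in 𝓝 p,
      eval z ω.1 * fderiv ℂ (fun w => x' w ^ 2 + y' w ^ 2) z (Pi.single 0 1)
        + eval z ω.2 * fderiv ℂ (fun w => x' w ^ 2 + y' w ^ 2) z (Pi.single 1 1) = 0

/-- The foliations of degree `d` (classes of `P dy - Q dx` with `P, Q` without common factor and
`max (deg P) (deg Q) = d`) which have at least one center. -/
def centerSet (d : ℕ) : Set (Fol d) :=
  {x | ∃ (ω : forms d) (h : ω ≠ 0), x = Projectivization.mk ℂ ω h ∧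
    IsRelPrime (ω : Form).1 (ω : Form).2 ∧
    max (ω : Form).1.totalDegree (ω : Form).2.totalDegree = d ∧
    ∃ p : Fin 2 → ℂ, IsCenter (ω : Form) p}

/-- The center variety `M(d)`: the Zariski closure of the set of foliations of degree `d` with at
least one center. -/
def centerVariety (d : ℕ) : Set (Fol d) := zariskiClosure (centerSet d)

/-- The differential `df = f_y dy - (-f_x) dx`, stored as the pair `(f_y, -f_x)`. -/
noncomputable def diff (f : Poly) : Form := (pderiv 1 f, -pderiv 0 f)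

/-- The Hamiltonian foliations `L(d+1)`: classes of `df` with `f` of degree at most `d + 1`. -/
def hamiltonian (d : ℕ) : Set (Fol d) :=
  {x | ∃ f : Poly, f.totalDegree ≤ d + 1 ∧ ∃ (ω : forms d) (h : ω ≠ 0),
    (ω : Form) = diff f ∧ x = Projectivization.mk ℂ ω h}

/-! ## Proofs: the Zariski topology -/

section Zariski

variable {V : Type} [AddCommGroup V] [Module ℂ V]

/-! ### Basic facts -/

theorem mk_mem_zeroLocus (S : Set (V → ℂ)) (hS : ∀ f ∈ S, f ∈ polyFun V ∧ ∃ n : ℕ, IsHomog f n)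
    (v : V) (h : v ≠ 0) :
    Projectivization.mk ℂ v h ∈ zeroLocus S ↔ ∀ f ∈ S, f v = 0 := by
  obtain ⟨a, ha⟩ := Projectivization.exists_smul_eq_mk_rep ℂ v h
  have hrep : (Projectivization.mk ℂ v h).rep = (a : ℂ) • v := by
    rw [← ha]; rfl
  constructor
  · intro hx f hf
    obtain ⟨n, hn⟩ := (hS f hf).2
    have := hx f hf
    rw [hrep, hn] at this
    rcases mul_eq_zero.mp this with h0 | h0
    · exact absurd h0 (pow_ne_zero n a.ne_zero)
    · exact h0
  · intro hx f hf
    obtain ⟨n, hn⟩ := (hS f hf).2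
    rw [hrep, hn, hx f hf, mul_zero]

theorem isAlgebraic_empty : IsAlgebraic (∅ : Set (Projectivization ℂ V)) := by
  refine ⟨{1}, ?_, ?_⟩
  · intro f hf
    rw [Set.mem_singleton_iff.mp hf]
    exact ⟨one_mem _, 0, fun c v => by simp⟩
  · ext x
    simp [zeroLocus]

theorem isAlgebraic_sInter (A : Set (Set (Projectivization ℂ V)))
    (hA : ∀ Z ∈ A, IsAlgebraic Z) : IsAlgebraic (⋂₀ A) := by
  refine ⟨{f | (f ∈ polyFun V ∧ ∃ n : ℕ, IsHomog f n) ∧ ∃ Z ∈ A, ∀ x ∈ Z, f x.rep = 0},
    fun f hf => hf.1, ?_⟩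
  apply Set.Subset.antisymm
  · rintro x hx f ⟨_, Z, hZ, hfZ⟩
    exact hfZ x (hx Z hZ)
  · intro x hx Z hZ
    obtain ⟨S, hS, rfl⟩ := hA Z hZ
    intro f hf
    exact hx f ⟨hS f hf, _, hZ, fun y hy => hy f hf⟩

theorem isAlgebraic_union {Z W : Set (Projectivization ℂ V)} (hZ : IsAlgebraic Z)
    (hW : IsAlgebraic W) : IsAlgebraic (Z ∪ W) := by
  obtain ⟨S, hS, rfl⟩ := hZ
  obtain ⟨T, hT, rfl⟩ := hW
  refine ⟨{h | ∃ f ∈ S, ∃ g ∈ T, h = f * g}, ?_, ?_⟩
  · rintro h ⟨f, hf, g, hg, rfl⟩
    obtain ⟨n, hn⟩ := (hS f hf).2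
    obtain ⟨m, hm⟩ := (hT g hg).2
    refine ⟨mul_mem (hS f hf).1 (hT g hg).1, n + m, fun c v => ?_⟩
    rw [Pi.mul_apply, Pi.mul_apply, hn, hm, pow_add]
    ring
  · ext x
    constructor
    · rintro (hx | hx) h ⟨f, hf, g, hg, rfl⟩
      · rw [Pi.mul_apply, hx f hf, zero_mul]
      · rw [Pi.mul_apply, hx g hg, mul_zero]
    · intro hx
      by_contra hcon
      rw [Set.mem_union, not_or] at hcon
      obtain ⟨h1, h2⟩ := hcon
      simp only [zeroLocus, Set.mem_ofPred_eq, not_forall] at h1 h2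
      obtain ⟨f, hf, hf0⟩ := h1
      obtain ⟨g, hg, hg0⟩ := h2
      exact mul_ne_zero hf0 hg0 (hx _ ⟨f, hf, g, hg, rfl⟩)

/-- The Zariski topology on the projectivization. -/
@[instance_reducible]
def zar (V : Type) [AddCommGroup V] [Module ℂ V] : TopologicalSpace (Projectivization ℂ V) :=
  TopologicalSpace.ofClosed {Z | IsAlgebraic Z} isAlgebraic_empty
    (fun A hA => isAlgebraic_sInter A hA) (fun _ hZ _ hW => isAlgebraic_union hZ hW)

theorem isClosed_iff (Z : Set (Projectivization ℂ V)) :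
    @IsClosed _ (zar V) Z ↔ IsAlgebraic Z := by
  rw [← @isOpen_compl_iff _ _ (zar V)]
  show IsAlgebraic (Zᶜᶜ) ↔ _
  rw [compl_compl]

theorem closure_eq (Z : Set (Projectivization ℂ V)) :
    @closure _ (zar V) Z = zariskiClosure Z := by
  unfold closure zariskiClosure
  congr 1
  ext W
  simp only [Set.mem_ofPred_eq, isClosed_iff]

theorem isAlgebraic_zariskiClosure (Z : Set (Projectivization ℂ V)) :
    IsAlgebraic (zariskiClosure Z) :=
  isAlgebraic_sInter _ fun _ hW => hW.1

theorem subset_zariskiClosure (Z : Set (Projectivization ℂ V)) : Z ⊆ zariskiClosure Z :=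
  fun _ hx _ hW => hW.2 hx

theorem zariskiClosure_subset {Z W : Set (Projectivization ℂ V)} (hW : IsAlgebraic W)
    (h : Z ⊆ W) : zariskiClosure Z ⊆ W := fun _ hx => hx W ⟨hW, h⟩

theorem isIrreducible_iff (Z : Set (Projectivization ℂ V)) :
    IsIrreducibleAlgebraic Z ↔ @IsClosed _ (zar V) Z ∧ @IsIrreducible _ (zar V) Z := by
  unfold IsIrreducibleAlgebraic IsIrreducible
  rw [@isPreirreducible_iff_isClosed_union_isClosed _ (zar V)]
  simp only [isClosed_iff]

/-! ### Noetherianity -/

theorem polyFun_noetherian [Module.Finite ℂ V] : IsNoetherianRing (polyFun V) := by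
  have hft : Algebra.FiniteType ℂ (polyFun V) := by
    rw [← Subalgebra.fg_iff_finiteType, Subalgebra.fg_def]
    let b := Module.finBasis ℂ V
    refine ⟨Set.range fun i => (b.coord i : V → ℂ), Set.finite_range _, ?_⟩
    apply le_antisymm
    · refine Algebra.adjoin_mono ?_
      rintro f ⟨i, rfl⟩
      exact ⟨b.coord i, rfl⟩
    · refine Algebra.adjoin_le ?_
      rintro _ ⟨l, rfl⟩
      have : (l : V → ℂ) = ∑ i, (l (b i)) • (b.coord i : V → ℂ) := by
        funext v
        have h1 : l v = l (∑ i, b.repr v i • b i) := by rw [b.sum_repr]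
        rw [h1, map_sum, Finset.sum_apply]
        refine Finset.sum_congr rfl fun i _ => ?_
        simp [mul_comm]
      show (l : V → ℂ) ∈ _
      rw [this]
      exact Subalgebra.sum_mem _ fun i _ => Subalgebra.smul_mem _
        (Algebra.subset_adjoin (Set.mem_range_self i)) _
  exact Algebra.FiniteType.isNoetherianRing ℂ _

/-- Evaluation at a vector, as a ring homomorphism on polynomial functions. -/
noncomputable def evalHom (v : V) : polyFun V →+* ℂ :=
  (Pi.evalRingHom (fun _ : V => ℂ) v).comp (polyFun V).val.toRingHom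

/-- The point of the spectrum defined by a vector. -/
noncomputable def toSpec (v : V) : PrimeSpectrum (polyFun V) :=
  ⟨RingHom.ker (evalHom v), RingHom.ker_isPrime _⟩

theorem mem_toSpec (v : V) (f : polyFun V) : f ∈ (toSpec v).asIdeal ↔ (f : V → ℂ) v = 0 :=
  Iff.rfl

theorem zar_noetherian [Module.Finite ℂ V] : @TopologicalSpace.NoetherianSpace _ (zar V) := by
  let _ := zar V
  have _ := polyFun_noetherian (V := V)
  let t : TopologicalSpace {v : V // v ≠ 0} :=
    TopologicalSpace.induced (fun v => toSpec v.1) inferInstance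
  have hi : IsInducing (fun v : {v : V // v ≠ 0} => toSpec v.1) := ⟨rfl⟩
  have : TopologicalSpace.NoetherianSpace {v : V // v ≠ 0} := hi.noetherianSpace
  refine TopologicalSpace.noetherianSpace_of_surjective
    (fun v : {v : V // v ≠ 0} => Projectivization.mk ℂ v.1 v.2) ?_ ?_
  · rw [continuous_iff_isClosed]
    intro Z hZ
    rw [isClosed_iff] at hZ
    obtain ⟨S, hS, rfl⟩ := hZ
    have : ((fun v : {v : V // v ≠ 0} => Projectivization.mk ℂ v.1 v.2) ⁻¹' zeroLocus S) =
        (fun v : {v : V // v ≠ 0} => toSpec v.1) ⁻¹'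
          (PrimeSpectrum.zeroLocus {f : polyFun V | (f : V → ℂ) ∈ S}) := by
      ext v
      rw [Set.mem_preimage, mk_mem_zeroLocus S hS, Set.mem_preimage,
        PrimeSpectrum.mem_zeroLocus]
      constructor
      · intro h f hf
        exact h f.1 hf
      · intro h f hf
        exact h (show (⟨f, (hS f hf).1⟩ : polyFun V) ∈ {f : polyFun V | (f : V → ℂ) ∈ S} from hf)
    rw [this]
    exact (PrimeSpectrum.isClosed_zeroLocus _).preimage hi.continuous
  · intro x
    exact ⟨⟨x.rep, x.rep_nonzero⟩, Projectivization.mk_rep x⟩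

/-- Every irreducible component of the Zariski closure of `A` meets `A`. -/
theorem component_meets [Module.Finite ℂ V] {A X : Set (Projectivization ℂ V)}
    (hX : IsComponent (zariskiClosure A) X) : (X ∩ A).Nonempty := by
  let _ := zar V
  have _ := zar_noetherian (V := V)
  obtain ⟨hXM, hXi, hmax⟩ := hX
  obtain ⟨S, hSf, hSc, hSi, hSU⟩ :=
    TopologicalSpace.NoetherianSpace.exists_finite_set_isClosed_irreducible
      ((isClosed_iff _).mpr (isAlgebraic_zariskiClosure A))
  obtain ⟨hXc, hXirr⟩ := (isIrreducible_iff X).mp hXi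
  by_contra hcon
  rw [Set.not_nonempty_iff_eq_empty] at hcon
  -- the union of the members of `S` that do not contain `X`
  have hT : (S \ {t | X ⊆ t}).Finite := hSf.subset Set.sdiff_subset
  have hTc : IsClosed (⋃₀ (S \ {t | X ⊆ t})) :=
    Set.sUnion_eq_biUnion ▸ hT.isClosed_biUnion fun t ht => hSc t ht.1
  have hA : A ⊆ ⋃₀ (S \ {t | X ⊆ t}) := by
    intro a ha
    have h1 : a ∈ ⋃₀ S := hSU ▸ subset_zariskiClosure A ha
    obtain ⟨t, ht, hat⟩ := h1
    refine ⟨t, ⟨ht, fun hXt => ?_⟩, hat⟩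
    have h2 : t = X := hmax t ((isIrreducible_iff t).mpr ⟨hSc t ht, hSi t ht⟩) hXt
      (hSU ▸ Set.subset_sUnion_of_mem ht)
    have : a ∈ X ∩ A := ⟨h2 ▸ hat, ha⟩
    rw [hcon] at this
    exact this
  have h3 : X ⊆ ⋃₀ (S \ {t | X ⊆ t}) :=
    hXM.trans (zariskiClosure_subset ((isClosed_iff _).mp hTc) hA)
  lift S to Finset (Set (Projectivization ℂ V)) using hSf
  have h4 := (isIrreducible_iff_sUnion_isClosed.1 hXirr) (hT.toFinset) (by
    intro t ht
    rw [Set.Finite.mem_toFinset] at ht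
    exact hSc t ht.1) (by simpa using h3)
  obtain ⟨t, ht, hXt⟩ := h4
  rw [Set.Finite.mem_toFinset] at ht
  exact ht.2 hXt

/-! ### Polynomial curves -/

/-- A polynomial curve in a complex vector space. -/
def IsPolyCurve {W : Type} [AddCommGroup W] [Module ℂ W] (γ : ℂ → W) : Prop :=
  ∃ (N : ℕ) (w : ℕ → W), ∀ t : ℂ, γ t = ∑ j ∈ Finset.range N, t ^ j • w j

theorem IsPolyCurve.exists_eval {γ : ℂ → V} (hγ : IsPolyCurve γ) {f : V → ℂ}
    (hf : f ∈ polyFun V) : ∃ R : Polynomial ℂ, ∀ t : ℂ, f (γ t) = R.eval t := by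
  obtain ⟨N, w, hw⟩ := hγ
  unfold polyFun at hf
  induction hf using Algebra.adjoin_induction with
  | mem f hf =>
    obtain ⟨l, rfl⟩ := hf
    refine ⟨∑ j ∈ Finset.range N, Polynomial.C (l (w j)) * Polynomial.X ^ j, fun t => ?_⟩
    show l (γ t) = _
    rw [hw t, map_sum, Polynomial.eval_finsetSum]
    refine Finset.sum_congr rfl fun j _ => ?_
    rw [map_smul, Polynomial.eval_mul, Polynomial.eval_C, Polynomial.eval_pow,
      Polynomial.eval_X, smul_eq_mul, mul_comm]
  | algebraMap c => exact ⟨Polynomial.C c, fun t => by simp⟩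
  | add f g _ _ hf hg =>
    obtain ⟨R, hR⟩ := hf
    obtain ⟨T, hT⟩ := hg
    exact ⟨R + T, fun t => by simp [hR, hT]⟩
  | mul f g _ _ hf hg =>
    obtain ⟨R, hR⟩ := hf
    obtain ⟨T, hT⟩ := hg
    exact ⟨R * T, fun t => by simp [hR, hT]⟩

/-- If a polynomial curve lies in a Zariski closed set for infinitely many parameters, it lies in
it for all parameters. -/
theorem curve_mem {γ : ℂ → V} (hγ : IsPolyCurve γ) {Z : Set (Projectivization ℂ V)}
    (hZ : IsAlgebraic Z) (s : Set ℂ) (hs : s.Infinite)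
    (h : ∀ t ∈ s, ∃ h0 : γ t ≠ 0, Projectivization.mk ℂ (γ t) h0 ∈ Z) (t : ℂ) (ht : γ t ≠ 0) :
    Projectivization.mk ℂ (γ t) ht ∈ Z := by
  obtain ⟨S, hS, rfl⟩ := hZ
  rw [mk_mem_zeroLocus S hS]
  intro f hf
  obtain ⟨R, hR⟩ := hγ.exists_eval (hS f hf).1
  have hR0 : R = 0 := by
    apply Polynomial.eq_zero_of_infinite_isRoot
    refine hs.mono fun u hu => ?_
    obtain ⟨h0, hu'⟩ := h u hu
    rw [mk_mem_zeroLocus S hS] at hu'
    show R.eval u = 0
    rw [← hR, hu' f hf]
  rw [hR, hR0, Polynomial.eval_zero]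

/-- Injective linear maps act continuously on the projectivization. -/
theorem isAlgebraic_preimage (L : V →ₗ[ℂ] V) (hL : Function.Injective L)
    {Z : Set (Projectivization ℂ V)} (hZ : IsAlgebraic Z) :
    IsAlgebraic (Projectivization.map L hL ⁻¹' Z) := by
  obtain ⟨S, hS, rfl⟩ := hZ
  have hS' : ∀ f ∈ {g : V → ℂ | ∃ f ∈ S, g = f ∘ L}, f ∈ polyFun V ∧ ∃ n : ℕ, IsHomog f n := by
    rintro g ⟨f, hf, rfl⟩
    obtain ⟨h1, n, hn⟩ := hS f hf
    refine ⟨?_, n, fun c v => ?_⟩
    · clear hn hf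
      unfold polyFun at h1 ⊢
      induction h1 using Algebra.adjoin_induction with
      | mem f hf =>
        obtain ⟨l, rfl⟩ := hf
        exact Algebra.subset_adjoin ⟨l.comp L, rfl⟩
      | algebraMap c => exact Subalgebra.algebraMap_mem _ c
      | add f g _ _ hf hg => exact Subalgebra.add_mem _ hf hg
      | mul f g _ _ hf hg => exact Subalgebra.mul_mem _ hf hg
    · simp only [Function.comp_apply, map_smul]
      exact hn c (L v)
  refine ⟨{g | ∃ f ∈ S, g = f ∘ L}, hS', ?_⟩
  ext x
  induction x using Projectivization.ind with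
  | h v hv =>
    rw [Set.mem_preimage, Projectivization.map_mk, mk_mem_zeroLocus S hS,
      mk_mem_zeroLocus _ hS']
    constructor
    · rintro h g ⟨f, hf, rfl⟩
      exact h f hf
    · intro h f hf
      exact h _ ⟨f, hf, rfl⟩

/-- **Invariance of components.**  Let `L t` be a family of linear maps depending polynomially on
`t`, injective for `t` outside a finite set `F`, with `L t₀ = 1`.  If all these maps preserve
the Zariski closed set `M`, then they preserve every irreducible component of `M`. -/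
theorem component_invariant {M X : Set (Projectivization ℂ V)} (hM : IsAlgebraic M)
    (hX : IsComponent M X) (L : ℂ → V →ₗ[ℂ] V) (F : Set ℂ) (hF : F.Finite)
    (hL : ∀ t ∉ F, Function.Injective (L t)) (hc : ∀ v : V, IsPolyCurve fun t => L t v)
    (t₀ : ℂ) (ht₀ : t₀ ∉ F) (h1 : L t₀ = LinearMap.id)
    (hpres : ∀ t (ht : t ∉ F), ∀ x ∈ M, Projectivization.map (L t) (hL t ht) x ∈ M) :
    ∀ t (ht : t ∉ F), ∀ x ∈ X, Projectivization.map (L t) (hL t ht) x ∈ X := by
  obtain ⟨hXM, hXi, hmax⟩ := hX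
  set A : Set (Projectivization ℂ V) :=
    {y | ∃ t, ∃ ht : t ∉ F, ∃ x ∈ X, y = Projectivization.map (L t) (hL t ht) x} with hA
  have hXA : X ⊆ A := by
    intro x hx
    refine ⟨t₀, ht₀, x, hx, ?_⟩
    induction x using Projectivization.ind with
    | h v hv =>
      rw [Projectivization.map_mk]
      congr 1
      rw [h1]; rfl
  have hAM : A ⊆ M := by
    rintro y ⟨t, ht, x, hx, rfl⟩
    exact hpres t ht x (hXM hx)
  have hirr : IsIrreducibleAlgebraic (zariskiClosure A) := by
    refine ⟨isAlgebraic_zariskiClosure A, (hXi.2.1.mono hXA).mono (subset_zariskiClosure A), ?_⟩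
    intro Z₁ Z₂ hZ₁ hZ₂ hsub
    have hsub' : A ⊆ Z₁ ∪ Z₂ := (subset_zariskiClosure A).trans hsub
    -- the subset of points of `X` whose whole orbit stays in `Z`
    let Y : Set (Projectivization ℂ V) → Set (Projectivization ℂ V) := fun Z =>
      ⋂₀ {W | ∃ t, ∃ ht : t ∉ F, W = Projectivization.map (L t) (hL t ht) ⁻¹' Z}
    have hY : ∀ Z, IsAlgebraic Z → IsAlgebraic (Y Z) := by
      intro Z hZ
      refine isAlgebraic_sInter _ ?_
      rintro W ⟨t, ht, rfl⟩
      exact isAlgebraic_preimage _ _ hZ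
    have hYA : ∀ Z, IsAlgebraic Z → X ⊆ Y Z → zariskiClosure A ⊆ Z := by
      intro Z hZ hXY
      refine zariskiClosure_subset hZ ?_
      rintro y ⟨t, ht, x, hx, rfl⟩
      exact hXY hx _ ⟨t, ht, rfl⟩
    have hcov : X ⊆ Y Z₁ ∪ Y Z₂ := by
      intro x hx
      have hinf : (Fᶜ : Set ℂ).Infinite := hF.infinite_compl
      let T : Set (Projectivization ℂ V) → Set ℂ := fun Z =>
        {t | ∃ ht : t ∉ F, Projectivization.map (L t) (hL t ht) x ∈ Z}
      have hT : (Fᶜ : Set ℂ) ⊆ T Z₁ ∪ T Z₂ := by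
        intro t ht
        rcases hsub' ⟨t, ht, x, hx, rfl⟩ with h | h
        · exact Or.inl ⟨ht, h⟩
        · exact Or.inr ⟨ht, h⟩
      have key : ∀ Z, IsAlgebraic Z → (T Z).Infinite → x ∈ Y Z := by
        rintro Z hZ hTZ W ⟨t, ht, rfl⟩
        rw [Set.mem_preimage]
        induction x using Projectivization.ind with
        | h v hv =>
          rw [Projectivization.map_mk]
          refine curve_mem (hc v) hZ (T Z) hTZ ?_ t _
          rintro u ⟨hu, hu'⟩
          rw [Projectivization.map_mk] at hu'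
          exact ⟨_, hu'⟩
      rcases Set.infinite_union.mp (hinf.mono hT) with h | h
      · exact Or.inl (key Z₁ hZ₁ h)
      · exact Or.inr (key Z₂ hZ₂ h)
    rcases hXi.2.2 _ _ (hY Z₁ hZ₁) (hY Z₂ hZ₂) hcov with h | h
    · exact Or.inl (hYA Z₁ hZ₁ h)
    · exact Or.inr (hYA Z₂ hZ₂ h)
  have heq := hmax _ hirr (hXA.trans (subset_zariskiClosure A)) (zariskiClosure_subset hM hAM)
  intro t ht x hx
  rw [← heq]
  exact subset_zariskiClosure A ⟨t, ht, x, hx, rfl⟩

end Zariski


/-! ### Affine substitutions -/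

/-- The `i`-th component of the affine map `z ↦ A z + b`, as a polynomial. -/
noncomputable def lin (A : Matrix (Fin 2) (Fin 2) ℂ) (b : Fin 2 → ℂ) (i : Fin 2) : Poly :=
  C (A i 0) * X 0 + C (A i 1) * X 1 + C (b i)

/-- Substitution of the affine map `z ↦ A z + b`. -/
noncomputable def sub (A : Matrix (Fin 2) (Fin 2) ℂ) (b : Fin 2 → ℂ) : Poly →ₐ[ℂ] Poly :=
  aeval (lin A b)

theorem eval_sub (A : Matrix (Fin 2) (Fin 2) ℂ) (b z : Fin 2 → ℂ) (P : Poly) :
    eval z (sub A b P) = eval (A.mulVec z + b) P := by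
  unfold sub
  induction P using MvPolynomial.induction_on with
  | C c => simp
  | add p q hp hq => rw [map_add, map_add, map_add, hp, hq]
  | mul_X p i hp =>
    rw [map_mul, map_mul, map_mul, hp, aeval_X, eval_X]
    congr 1
    fin_cases i <;> simp [lin, Matrix.mulVec, dotProduct, Fin.sum_univ_two]

theorem totalDegree_lin (A : Matrix (Fin 2) (Fin 2) ℂ) (b : Fin 2 → ℂ) (i : Fin 2) :
    (lin A b i).totalDegree ≤ 1 := by
  unfold lin
  refine (totalDegree_add _ _).trans (max_le ((totalDegree_add _ _).trans (max_le ?_ ?_)) ?_)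
  · refine (totalDegree_mul _ _).trans ?_
    rw [totalDegree_C, totalDegree_X]
  · refine (totalDegree_mul _ _).trans ?_
    rw [totalDegree_C, totalDegree_X]
  · rw [totalDegree_C]; exact Nat.zero_le _

theorem totalDegree_sub_le (A : Matrix (Fin 2) (Fin 2) ℂ) (b : Fin 2 → ℂ) (P : Poly) :
    (sub A b P).totalDegree ≤ P.totalDegree := by
  unfold sub
  conv_lhs => rw [P.as_sum, map_sum]
  refine (totalDegree_finsetSum _ _).trans (Finset.sup_le fun m hm => ?_)
  rw [aeval_monomial, algebraMap_eq]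
  refine (totalDegree_mul _ _).trans ?_
  rw [totalDegree_C, zero_add]
  refine le_trans ?_ (le_totalDegree hm)
  unfold Finsupp.prod Finsupp.sum
  refine (totalDegree_finsetProd _ _).trans (Finset.sum_le_sum fun i _ => ?_)
  refine (totalDegree_pow _ _).trans ?_
  calc m i * (lin A b i).totalDegree ≤ m i * 1 := Nat.mul_le_mul_left _ (totalDegree_lin A b i)
    _ = m i := mul_one _

theorem pderiv_sub (A : Matrix (Fin 2) (Fin 2) ℂ) (b : Fin 2 → ℂ) (P : Poly) (j : Fin 2) :
    pderiv j (sub A b P) = A 0 j • sub A b (pderiv 0 P) + A 1 j • sub A b (pderiv 1 P) := by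
  unfold sub
  induction P using MvPolynomial.induction_on with
  | C c => simp
  | add p q hp hq =>
    simp only [map_add, hp, hq, smul_add]
    abel
  | mul_X p i hp =>
    have hl : pderiv j (lin A b i) = C (A i j) := by
      unfold lin
      fin_cases j <;> simp [pderiv_X]
    simp only [map_mul, aeval_X, Derivation.leibniz, hp, hl, pderiv_X, smul_eq_mul, map_add,
      smul_eq_C_mul]
    fin_cases i <;> simp <;> ring

/-- Pull-back of a form by the affine map `z ↦ A z + b`. -/
noncomputable def pull (A : Matrix (Fin 2) (Fin 2) ℂ) (b : Fin 2 → ℂ) : Form →ₗ[ℂ] Form where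
  toFun ω := (A 1 1 • sub A b ω.1 - A 0 1 • sub A b ω.2, A 0 0 • sub A b ω.2 - A 1 0 • sub A b ω.1)
  map_add' ω η := by
    ext1
    · simp only [Prod.fst_add, Prod.snd_add, map_add, smul_add]; abel
    · simp only [Prod.fst_add, Prod.snd_add, map_add, smul_add]; abel
  map_smul' c ω := by
    ext1
    · simp only [Prod.smul_fst, Prod.smul_snd, map_smul, smul_sub, RingHom.id_apply,
        smul_comm c]
    · simp only [Prod.smul_fst, Prod.smul_snd, map_smul, smul_sub, RingHom.id_apply,
        smul_comm c]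

theorem pull_mem {d : ℕ} (A : Matrix (Fin 2) (Fin 2) ℂ) (b : Fin 2 → ℂ) (ω : Form)
    (h : ω ∈ forms d) : pull A b ω ∈ forms d := by
  obtain ⟨h1, h2⟩ := h
  have h1' : sub A b ω.1 ∈ restrictTotalDegree (Fin 2) ℂ d := by
    rw [mem_restrictTotalDegree]
    exact (totalDegree_sub_le A b _).trans ((mem_restrictTotalDegree _ _ _).mp h1)
  have h2' : sub A b ω.2 ∈ restrictTotalDegree (Fin 2) ℂ d := by
    rw [mem_restrictTotalDegree]
    exact (totalDegree_sub_le A b _).trans ((mem_restrictTotalDegree _ _ _).mp h2)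
  exact ⟨Submodule.sub_mem _ (Submodule.smul_mem _ _ h1') (Submodule.smul_mem _ _ h2'),
    Submodule.sub_mem _ (Submodule.smul_mem _ _ h2') (Submodule.smul_mem _ _ h1')⟩

/-- Pull-back on `forms d`. -/
noncomputable def pullForms (d : ℕ) (A : Matrix (Fin 2) (Fin 2) ℂ) (b : Fin 2 → ℂ) :
    forms d →ₗ[ℂ] forms d :=
  (pull A b).restrict fun ω h => pull_mem A b ω h

theorem sub_sub (A A' : Matrix (Fin 2) (Fin 2) ℂ) (b b' : Fin 2 → ℂ) (hA : A * A' = 1)
    (hb : A.mulVec b' + b = 0) (P : Poly) : sub A' b' (sub A b P) = P := by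
  apply MvPolynomial.funext
  intro z
  rw [eval_sub, eval_sub]
  congr 2
  rw [Matrix.mulVec_add, Matrix.mulVec_mulVec, hA, Matrix.one_mulVec, add_assoc, hb, add_zero]

theorem exists_inverse (A : Matrix (Fin 2) (Fin 2) ℂ) (b : Fin 2 → ℂ) (hA : A.det ≠ 0) :
    ∃ (A' : Matrix (Fin 2) (Fin 2) ℂ) (b' : Fin 2 → ℂ), A * A' = 1 ∧ A' * A = 1 ∧
      A.mulVec b' + b = 0 ∧ A'.mulVec b + b' = 0 := by
  have hu : IsUnit A.det := isUnit_iff_ne_zero.mpr hA
  refine ⟨A⁻¹, -(A⁻¹).mulVec b, Matrix.mul_nonsing_inv _ hu, Matrix.nonsing_inv_mul _ hu, ?_, ?_⟩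
  · rw [Matrix.mulVec_neg, Matrix.mulVec_mulVec, Matrix.mul_nonsing_inv _ hu, Matrix.one_mulVec]
    exact neg_add_cancel b
  · exact add_neg_cancel _

theorem sub_injective (A : Matrix (Fin 2) (Fin 2) ℂ) (b : Fin 2 → ℂ) (hA : A.det ≠ 0) :
    Function.Injective (sub A b) := by
  obtain ⟨A', b', h1, h2, h3, h4⟩ := exists_inverse A b hA
  exact Function.LeftInverse.injective (g := sub A' b') fun P => sub_sub A A' b b' h1 h3 P

theorem pull_injective (A : Matrix (Fin 2) (Fin 2) ℂ) (b : Fin 2 → ℂ) (hA : A.det ≠ 0) :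
    Function.Injective (pull A b) := by
  rw [← LinearMap.ker_eq_bot, LinearMap.ker_eq_bot']
  intro ω hω
  have h1 : A 1 1 • sub A b ω.1 - A 0 1 • sub A b ω.2 = 0 := congrArg Prod.fst hω
  have h2 : A 0 0 • sub A b ω.2 - A 1 0 • sub A b ω.1 = 0 := congrArg Prod.snd hω
  rw [Matrix.det_fin_two] at hA
  have h3 : (A 0 0 * A 1 1 - A 0 1 * A 1 0) • sub A b ω.1 = 0 := by
    simp only [smul_eq_C_mul] at h1 h2 ⊢
    rw [C_sub, C_mul, C_mul]
    linear_combination C (A 0 0) * h1 + C (A 0 1) * h2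
  have h4 : (A 0 0 * A 1 1 - A 0 1 * A 1 0) • sub A b ω.2 = 0 := by
    simp only [smul_eq_C_mul] at h1 h2 ⊢
    rw [C_sub, C_mul, C_mul]
    linear_combination C (A 1 0) * h1 + C (A 1 1) * h2
  have h5 := (smul_eq_zero.mp h3).resolve_left hA
  have h6 := (smul_eq_zero.mp h4).resolve_left hA
  have hA' : A.det ≠ 0 := by rw [Matrix.det_fin_two]; exact hA
  have h7 : ω.1 = 0 := sub_injective A b hA' (by rw [h5, map_zero])
  have h8 : ω.2 = 0 := sub_injective A b hA' (by rw [h6, map_zero])
  exact Prod.ext h7 h8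

theorem pullForms_injective (d : ℕ) (A : Matrix (Fin 2) (Fin 2) ℂ) (b : Fin 2 → ℂ)
    (hA : A.det ≠ 0) : Function.Injective (pullForms d A b) := by
  intro ω η h
  exact Subtype.ext (pull_injective A b hA (congrArg Subtype.val h))


theorem pull_fst_eq (A : Matrix (Fin 2) (Fin 2) ℂ) (b : Fin 2 → ℂ) (ω : Form) :
    A.det • sub A b ω.1 = A 0 0 • (pull A b ω).1 + A 0 1 • (pull A b ω).2 := by
  show _ = A 0 0 • (A 1 1 • sub A b ω.1 - A 0 1 • sub A b ω.2) +
    A 0 1 • (A 0 0 • sub A b ω.2 - A 1 0 • sub A b ω.1)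
  rw [Matrix.det_fin_two]
  simp only [smul_eq_C_mul, C_sub, C_mul]
  ring

theorem pull_snd_eq (A : Matrix (Fin 2) (Fin 2) ℂ) (b : Fin 2 → ℂ) (ω : Form) :
    A.det • sub A b ω.2 = A 1 0 • (pull A b ω).1 + A 1 1 • (pull A b ω).2 := by
  show _ = A 1 0 • (A 1 1 • sub A b ω.1 - A 0 1 • sub A b ω.2) +
    A 1 1 • (A 0 0 • sub A b ω.2 - A 1 0 • sub A b ω.1)
  rw [Matrix.det_fin_two]
  simp only [smul_eq_C_mul, C_sub, C_mul]
  ring

theorem dvd_of_dvd_smul {D P : Poly} {c : ℂ} (hc : c ≠ 0) (h : D ∣ c • P) : D ∣ P := by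
  have : P = C (c⁻¹) * (c • P) := by
    rw [smul_eq_C_mul, ← mul_assoc, ← C_mul, inv_mul_cancel₀ hc, C_1, one_mul]
  rw [this]
  exact h.mul_left _

theorem isRelPrime_pull (A : Matrix (Fin 2) (Fin 2) ℂ) (b : Fin 2 → ℂ) (hA : A.det ≠ 0)
    (ω : Form) (h : IsRelPrime ω.1 ω.2) : IsRelPrime (pull A b ω).1 (pull A b ω).2 := by
  obtain ⟨A', b', h1, h2, h3, h4⟩ := exists_inverse A b hA
  intro D hD1 hD2
  have k1 : D ∣ sub A b ω.1 := by
    apply dvd_of_dvd_smul hA
    rw [pull_fst_eq, smul_eq_C_mul, smul_eq_C_mul]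
    exact dvd_add (hD1.mul_left _) (hD2.mul_left _)
  have k2 : D ∣ sub A b ω.2 := by
    apply dvd_of_dvd_smul hA
    rw [pull_snd_eq, smul_eq_C_mul, smul_eq_C_mul]
    exact dvd_add (hD1.mul_left _) (hD2.mul_left _)
  have k3 : sub A' b' D ∣ ω.1 := by
    have := map_dvd (sub A' b') k1
    rwa [sub_sub A A' b b' h1 h3] at this
  have k4 : sub A' b' D ∣ ω.2 := by
    have := map_dvd (sub A' b') k2
    rwa [sub_sub A A' b b' h1 h3] at this
  have k5 : IsUnit (sub A' b' D) := h k3 k4
  have k6 := k5.map (sub A b)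
  rwa [sub_sub A' A b' b h2 h4] at k6

theorem max_degree_pull (A : Matrix (Fin 2) (Fin 2) ℂ) (b : Fin 2 → ℂ) (hA : A.det ≠ 0)
    (ω : Form) : max (pull A b ω).1.totalDegree (pull A b ω).2.totalDegree =
      max ω.1.totalDegree ω.2.totalDegree := by
  obtain ⟨A', b', h1, h2, h3, h4⟩ := exists_inverse A b hA
  apply le_antisymm
  · have h := pull_mem (d := max ω.1.totalDegree ω.2.totalDegree) A b ω
      ⟨(mem_restrictTotalDegree _ _ _).mpr (le_max_left _ _),
        (mem_restrictTotalDegree _ _ _).mpr (le_max_right _ _)⟩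
    exact max_le ((mem_restrictTotalDegree _ _ _).mp h.1) ((mem_restrictTotalDegree _ _ _).mp h.2)
  · set D := max (pull A b ω).1.totalDegree (pull A b ω).2.totalDegree with hD
    have g1 : (pull A b ω).1 ∈ restrictTotalDegree (Fin 2) ℂ D :=
      (mem_restrictTotalDegree _ _ _).mpr (le_max_left _ _)
    have g2 : (pull A b ω).2 ∈ restrictTotalDegree (Fin 2) ℂ D :=
      (mem_restrictTotalDegree _ _ _).mpr (le_max_right _ _)
    have k1 : sub A b ω.1 ∈ restrictTotalDegree (Fin 2) ℂ D := by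
      rw [← Submodule.smul_mem_iff _ hA, pull_fst_eq]
      exact Submodule.add_mem _ (Submodule.smul_mem _ _ g1) (Submodule.smul_mem _ _ g2)
    have k2 : sub A b ω.2 ∈ restrictTotalDegree (Fin 2) ℂ D := by
      rw [← Submodule.smul_mem_iff _ hA, pull_snd_eq]
      exact Submodule.add_mem _ (Submodule.smul_mem _ _ g1) (Submodule.smul_mem _ _ g2)
    rw [mem_restrictTotalDegree] at k1 k2
    refine max_le ?_ ?_
    · rw [← sub_sub A A' b b' h1 h3 ω.1]
      exact (totalDegree_sub_le _ _ _).trans k1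
    · rw [← sub_sub A A' b b' h1 h3 ω.2]
      exact (totalDegree_sub_le _ _ _).trans k2

/-- The affine map as a continuous function. -/
theorem hasFDerivAt_affine (A : Matrix (Fin 2) (Fin 2) ℂ) (b z : Fin 2 → ℂ) :
    HasFDerivAt (fun w => A.mulVec w + b) (A.mulVecLin.toContinuousLinearMap) z :=
  (A.mulVecLin.toContinuousLinearMap.hasFDerivAt (x := z)).add_const b

theorem fderiv_comp_affine (A : Matrix (Fin 2) (Fin 2) ℂ) (b z v : Fin 2 → ℂ)
    (f : (Fin 2 → ℂ) → ℂ) (hf : DifferentiableAt ℂ f (A.mulVec z + b)) :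
    fderiv ℂ (fun w => f (A.mulVec w + b)) z v = fderiv ℂ f (A.mulVec z + b) (A.mulVec v) := by
  have h := hf.hasFDerivAt.comp z (hasFDerivAt_affine A b z)
  have h' : HasFDerivAt (fun w => f (A.mulVec w + b))
      ((fderiv ℂ f (A.mulVec z + b)).comp A.mulVecLin.toContinuousLinearMap) z := h
  rw [h'.fderiv]
  rfl

theorem mulVec_single_eq (A : Matrix (Fin 2) (Fin 2) ℂ) (j : Fin 2) :
    A.mulVec (Pi.single j 1) = A 0 j • (Pi.single 0 1 : Fin 2 → ℂ) +
      A 1 j • (Pi.single 1 1 : Fin 2 → ℂ) := by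
  rw [Matrix.mulVec_single_one]
  funext i
  fin_cases i <;> simp

theorem fderiv_comp_affine_single (A : Matrix (Fin 2) (Fin 2) ℂ) (b z : Fin 2 → ℂ)
    (f : (Fin 2 → ℂ) → ℂ) (hf : DifferentiableAt ℂ f (A.mulVec z + b)) (j : Fin 2) :
    fderiv ℂ (fun w => f (A.mulVec w + b)) z (Pi.single j 1) =
      A 0 j * fderiv ℂ f (A.mulVec z + b) (Pi.single 0 1) +
        A 1 j * fderiv ℂ f (A.mulVec z + b) (Pi.single 1 1) := by
  rw [fderiv_comp_affine A b z _ f hf, mulVec_single_eq, map_add, map_smul, map_smul,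
    smul_eq_mul, smul_eq_mul]

theorem continuous_affine (A : Matrix (Fin 2) (Fin 2) ℂ) (b : Fin 2 → ℂ) :
    Continuous fun w : Fin 2 → ℂ => A.mulVec w + b :=
  continuous_iff_continuousAt.mpr fun z => (hasFDerivAt_affine A b z).continuousAt

/-- Centers are preserved by affine changes of coordinates. -/
theorem isCenter_pull (A : Matrix (Fin 2) (Fin 2) ℂ) (b : Fin 2 → ℂ) (hA : A.det ≠ 0)
    (ω : Form) (c : Fin 2 → ℂ) (h : IsCenter ω (A.mulVec c + b)) : IsCenter (pull A b ω) c := by
  have e1 : ∀ z, eval z (pull A b ω).1 =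
      A 1 1 * eval (A.mulVec z + b) ω.1 - A 0 1 * eval (A.mulVec z + b) ω.2 := by
    intro z
    show eval z (A 1 1 • sub A b ω.1 - A 0 1 • sub A b ω.2) = _
    rw [map_sub, smul_eval, smul_eval, eval_sub, eval_sub]
  have e2 : ∀ z, eval z (pull A b ω).2 =
      A 0 0 * eval (A.mulVec z + b) ω.2 - A 1 0 * eval (A.mulVec z + b) ω.1 := by
    intro z
    show eval z (A 0 0 • sub A b ω.2 - A 1 0 • sub A b ω.1) = _
    rw [map_sub, smul_eval, smul_eval, eval_sub, eval_sub]
  have e3 : ∀ j z, eval z (pderiv j (pull A b ω).1) =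
      A 1 1 * (A 0 j * eval (A.mulVec z + b) (pderiv 0 ω.1)
        + A 1 j * eval (A.mulVec z + b) (pderiv 1 ω.1))
      - A 0 1 * (A 0 j * eval (A.mulVec z + b) (pderiv 0 ω.2)
        + A 1 j * eval (A.mulVec z + b) (pderiv 1 ω.2)) := by
    intro j z
    show eval z (pderiv j (A 1 1 • sub A b ω.1 - A 0 1 • sub A b ω.2)) = _
    simp only [map_sub, Derivation.map_smul, pderiv_sub, smul_eval, map_add, eval_sub]
  have e4 : ∀ j z, eval z (pderiv j (pull A b ω).2) =
      A 0 0 * (A 0 j * eval (A.mulVec z + b) (pderiv 0 ω.2)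
        + A 1 j * eval (A.mulVec z + b) (pderiv 1 ω.2))
      - A 1 0 * (A 0 j * eval (A.mulVec z + b) (pderiv 0 ω.1)
        + A 1 j * eval (A.mulVec z + b) (pderiv 1 ω.1)) := by
    intro j z
    show eval z (pderiv j (A 0 0 • sub A b ω.2 - A 1 0 • sub A b ω.1)) = _
    simp only [map_sub, Derivation.map_smul, pderiv_sub, smul_eval, map_add, eval_sub]
  obtain ⟨h1, h2, h3, x', y', hx, hy, hx0, hy0, hJ, hev⟩ := h
  rw [Matrix.det_fin_two] at hA
  refine ⟨?_, ?_, ?_, fun w => x' (A.mulVec w + b), fun w => y' (A.mulVec w + b), ?_, ?_, hx0,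
    hy0, ?_, ?_⟩
  · rw [e1, h1, h2]; ring
  · rw [e2, h1, h2]; ring
  · rw [e3, e3, e4, e4]
    intro h0
    apply mul_ne_zero (mul_ne_zero hA hA) h3
    rw [← h0]
    ring
  · exact hx.comp_of_eq ((A.mulVecLin.toContinuousLinearMap.analyticAt c).add analyticAt_const) rfl
  · exact hy.comp_of_eq ((A.mulVecLin.toContinuousLinearMap.analyticAt c).add analyticAt_const) rfl
  · rw [fderiv_comp_affine_single A b c x' hx.differentiableAt,
      fderiv_comp_affine_single A b c x' hx.differentiableAt,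
      fderiv_comp_affine_single A b c y' hy.differentiableAt,
      fderiv_comp_affine_single A b c y' hy.differentiableAt]
    intro h0
    apply mul_ne_zero hA hJ
    rw [← h0]
    ring
  · have hcont : Filter.Tendsto (fun w : Fin 2 → ℂ => A.mulVec w + b) (𝓝 c)
        (𝓝 (A.mulVec c + b)) := (continuous_affine A b).continuousAt
    have hx' := hcont.eventually hx.eventually_analyticAt
    have hy' := hcont.eventually hy.eventually_analyticAt
    filter_upwards [hx', hy', hcont.eventually hev] with z hxz hyz hz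
    have hg : DifferentiableAt ℂ (fun w => x' w ^ 2 + y' w ^ 2) (A.mulVec z + b) :=
      (hxz.differentiableAt.pow 2).add (hyz.differentiableAt.pow 2)
    rw [fderiv_comp_affine_single A b z (fun w => x' w ^ 2 + y' w ^ 2) hg,
      fderiv_comp_affine_single A b z (fun w => x' w ^ 2 + y' w ^ 2) hg, e1, e2]
    linear_combination (A 0 0 * A 1 1 - A 0 1 * A 1 0) * hz

theorem map_centerSet (d : ℕ) (A : Matrix (Fin 2) (Fin 2) ℂ) (b : Fin 2 → ℂ) (hA : A.det ≠ 0)
    (x : Fol d) (hx : x ∈ centerSet d) :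
    Projectivization.map (pullForms d A b) (pullForms_injective d A b hA) x ∈ centerSet d := by
  obtain ⟨ω, h, rfl, h1, h2, p, hp⟩ := hx
  obtain ⟨A', b', k1, k2, k3, k4⟩ := exists_inverse A b hA
  refine ⟨pullForms d A b ω, ?_, Projectivization.map_mk _ _ _ _, ?_, ?_, A'.mulVec p + b', ?_⟩
  · intro h0
    exact h (pullForms_injective d A b hA (by rw [h0, map_zero]))
  · exact isRelPrime_pull A b hA _ h1
  · exact (max_degree_pull A b hA _).trans h2
  · refine isCenter_pull A b hA _ _ ?_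
    have : A.mulVec (A'.mulVec p + b') + b = p := by
      rw [Matrix.mulVec_add, Matrix.mulVec_mulVec, k1, Matrix.one_mulVec, add_assoc, k3, add_zero]
    rw [this]
    exact hp

theorem map_centerVariety (d : ℕ) (A : Matrix (Fin 2) (Fin 2) ℂ) (b : Fin 2 → ℂ)
    (hA : A.det ≠ 0) (x : Fol d) (hx : x ∈ centerVariety d) :
    Projectivization.map (pullForms d A b) (pullForms_injective d A b hA) x ∈
      centerVariety d := by
  have h : centerVariety d ⊆ Projectivization.map (pullForms d A b)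
      (pullForms_injective d A b hA) ⁻¹' centerVariety d :=
    zariskiClosure_subset (isAlgebraic_preimage _ _ (isAlgebraic_zariskiClosure _))
      fun y hy => subset_zariskiClosure _ (map_centerSet d A b hA y hy)
  exact h hx


/-! ### The linear part at a center is closed -/

theorem hasDerivAt_eval_line (p v : Fin 2 → ℂ) (P : Poly) :
    HasDerivAt (fun s : ℂ => eval (p + s • v) P)
      (v 0 * eval p (pderiv 0 P) + v 1 * eval p (pderiv 1 P)) 0 := by
  induction P using MvPolynomial.induction_on with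
  | C c =>
    simp only [eval_C, pderiv_C, map_zero, mul_zero, add_zero]
    exact hasDerivAt_const _ _
  | add f g hf hg =>
    have h := hf.add hg
    simp only [map_add]
    refine h.congr_deriv ?_
    ring
  | mul_X f i hf =>
    have h1 : HasDerivAt (fun s : ℂ => (p + s • v) i) (v i) 0 := by
      have : HasDerivAt (fun s : ℂ => p i + s * v i) (1 * v i) 0 :=
        ((hasDerivAt_id (0 : ℂ)).mul_const (v i)).const_add (p i)
      rw [one_mul] at this
      exact this
    have h := hf.mul h1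
    simp only [map_mul, eval_X]
    refine h.congr_deriv ?_
    simp only [zero_smul, add_zero, Derivation.leibniz, pderiv_X, smul_eq_mul, map_add, map_mul,
      eval_X]
    fin_cases i <;> simp <;> ring

theorem hasDerivAt_line (p v : Fin 2 → ℂ) : HasDerivAt (fun s : ℂ => p + s • v) v 0 := by
  have := ((hasDerivAt_id (0 : ℂ)).smul_const v).const_add p
  rw [one_smul] at this
  exact this

theorem hasDerivAt_comp_line (p v : Fin 2 → ℂ) (f : (Fin 2 → ℂ) → ℂ)
    (hf : DifferentiableAt ℂ f p) :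
    HasDerivAt (fun s : ℂ => f (p + s • v)) (fderiv ℂ f p v) 0 := by
  have h0 : p + (0 : ℂ) • v = p := by simp
  have h1 : HasFDerivAt f (fderiv ℂ f p) (p + (0 : ℂ) • v) := by
    rw [h0]; exact hf.hasFDerivAt
  exact h1.comp_hasDerivAt 0 (hasDerivAt_line p v)

theorem hasDerivAt_square_line (p v e : Fin 2 → ℂ) (f : (Fin 2 → ℂ) → ℂ)
    (hf : AnalyticAt ℂ f p) (hf0 : f p = 0) :
    HasDerivAt (fun s : ℂ => f (p + s • v) * fderiv ℂ f (p + s • v) e)
      (fderiv ℂ f p v * fderiv ℂ f p e) 0 := by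
  have h1 := hasDerivAt_comp_line p v f hf.differentiableAt
  have h2 : DifferentiableAt ℂ (fun z => fderiv ℂ f z e) p :=
    (hf.fderiv.differentiableAt).clm_apply (differentiableAt_const e)
  have h3 := hasDerivAt_comp_line p v (fun z => fderiv ℂ f z e) h2
  have h := h1.mul h3
  refine h.congr_deriv ?_
  simp [hf0]

theorem deriv_product_zero (a u c w : ℂ → ℂ) (a' u' c' w' : ℂ) (ha : HasDerivAt a a' 0)
    (hu : HasDerivAt u u' 0) (hc : HasDerivAt c c' 0) (hw : HasDerivAt w w' 0)
    (ha0 : a 0 = 0) (hu0 : u 0 = 0) (hc0 : c 0 = 0) (hw0 : w 0 = 0)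
    (h : ∀ᶠ s in 𝓝 (0 : ℂ), a s * u s + c s * w s = 0) : a' * u' + c' * w' = 0 := by
  rw [hasDerivAt_iff_tendsto_slope_zero] at ha hu hc hw
  have hlim := (ha.mul hu).add (hc.mul hw)
  have hzero : Filter.Tendsto (fun _ : ℂ => (0 : ℂ)) (𝓝[≠] 0) (𝓝 (a' * u' + c' * w')) := by
    refine hlim.congr' ?_
    filter_upwards [h.filter_mono nhdsWithin_le_nhds] with s hs
    simp only [zero_add, ha0, hu0, hc0, hw0, sub_zero, smul_eq_mul]
    linear_combination (s⁻¹ * s⁻¹) * hs
  exact (tendsto_nhds_unique hzero tendsto_const_nhds)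

theorem IsCenter.trace_zero {ω : Form} {p : Fin 2 → ℂ} (h : IsCenter ω p) :
    eval p (pderiv 0 ω.1) + eval p (pderiv 1 ω.2) = 0 := by
  obtain ⟨h1, h2, h3, x', y', hx, hy, hx0, hy0, hJ, hev⟩ := h
  set E0 : Fin 2 → ℂ := Pi.single 0 1 with hE0
  set E1 : Fin 2 → ℂ := Pi.single 1 1 with hE1
  -- the gradient of `g` near `p`
  have hgrad : ∀ᶠ z in 𝓝 p, ∀ e : Fin 2 → ℂ, fderiv ℂ (fun w => x' w ^ 2 + y' w ^ 2) z e =
      2 * (x' z * fderiv ℂ x' z e + y' z * fderiv ℂ y' z e) := by
    filter_upwards [hx.eventually_analyticAt, hy.eventually_analyticAt] with z hxz hyz e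
    have hd := ((hxz.differentiableAt.hasFDerivAt).pow 2).add
      ((hyz.differentiableAt.hasFDerivAt).pow 2)
    have hd' : fderiv ℂ (fun w => x' w ^ 2 + y' w ^ 2) z = _ := hd.fderiv
    rw [hd']
    simp
    ring
  have key : ∀ v : Fin 2 → ℂ,
      (v 0 * eval p (pderiv 0 ω.1) + v 1 * eval p (pderiv 1 ω.1)) *
        (fderiv ℂ x' p v * fderiv ℂ x' p E0 + fderiv ℂ y' p v * fderiv ℂ y' p E0) +
      (v 0 * eval p (pderiv 0 ω.2) + v 1 * eval p (pderiv 1 ω.2)) *
        (fderiv ℂ x' p v * fderiv ℂ x' p E1 + fderiv ℂ y' p v * fderiv ℂ y' p E1) = 0 := by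
    intro v
    have hline : Filter.Tendsto (fun s : ℂ => p + s • v) (𝓝 0) (𝓝 p) := by
      have := (hasDerivAt_line p v).continuousAt.tendsto
      simpa using this
    refine deriv_product_zero _ _ _ _ _ _ _ _ (hasDerivAt_eval_line p v ω.1)
      ((hasDerivAt_square_line p v E0 x' hx hx0).add (hasDerivAt_square_line p v E0 y' hy hy0))
      (hasDerivAt_eval_line p v ω.2)
      ((hasDerivAt_square_line p v E1 x' hx hx0).add (hasDerivAt_square_line p v E1 y' hy hy0))
      ?_ ?_ ?_ ?_ ?_
    · simp [h1]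
    · simp [hx0, hy0]
    · simp [h2]
    · simp [hx0, hy0]
    · filter_upwards [hline.eventually hgrad, hline.eventually hev] with s hs1 hs2
      rw [hs1, hs1] at hs2
      simp only [Pi.add_apply]
      linear_combination (1 / 2) * hs2
  have k0 := key E0
  have k1 := key E1
  have k2 := key (E0 + E1)
  simp only [map_add, Pi.add_apply] at k2
  have v00 : E0 0 = 1 := by simp [hE0]
  have v01 : E0 1 = 0 := by simp [hE0]
  have v10 : E1 0 = 0 := by simp [hE1]
  have v11 : E1 1 = 1 := by simp [hE1]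
  rw [v00, v01] at k0
  rw [v10, v11] at k1
  rw [v00, v01, v10, v11] at k2
  generalize fderiv ℂ x' p E0 = a at *
  generalize fderiv ℂ x' p E1 = b at *
  generalize fderiv ℂ y' p E0 = c at *
  generalize fderiv ℂ y' p E1 = e at *
  generalize eval p (pderiv 0 ω.1) = Px at *
  generalize eval p (pderiv 1 ω.1) = Py at *
  generalize eval p (pderiv 0 ω.2) = Qx at *
  generalize eval p (pderiv 1 ω.2) = Qy at *
  have hfin : (a * e - b * c) ^ 2 * (Px + Qy) = 0 := by
    linear_combination (b * b + e * e) * k0 - (a * b + c * e) * (k2 - k0 - k1) +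
      (a * a + c * c) * k1
  exact (mul_eq_zero.mp hfin).resolve_left (pow_ne_zero 2 hJ)


/-! ### Invariance of the components under affine maps -/

theorem isPolyCurve_pair (R S : Polynomial Poly) :
    IsPolyCurve (fun t : ℂ => ((R.eval (C t : Poly), S.eval (C t : Poly)) : Form)) := by
  refine ⟨max R.natDegree S.natDegree + 1, fun j => (R.coeff j, S.coeff j), fun t => ?_⟩
  ext1
  · show R.eval (C t : Poly) = _
    rw [Prod.fst_sum, Polynomial.eval_eq_sum_range'
      (lt_of_le_of_lt (le_max_left _ _) (Nat.lt_succ_self _))]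
    refine Finset.sum_congr rfl fun j _ => ?_
    rw [Prod.smul_fst, smul_eq_C_mul, C_pow, mul_comm]
  · show S.eval (C t : Poly) = _
    rw [Prod.snd_sum, Polynomial.eval_eq_sum_range'
      (lt_of_le_of_lt (le_max_right _ _) (Nat.lt_succ_self _))]
    refine Finset.sum_congr rfl fun j _ => ?_
    rw [Prod.smul_snd, smul_eq_C_mul, C_pow, mul_comm]

theorem isPolyCurve_subtype {W : Type} [AddCommGroup W] [Module ℂ W] (U : Submodule ℂ W)
    (γ : ℂ → U) (h : IsPolyCurve fun t => (γ t : W)) : IsPolyCurve γ := by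
  obtain ⟨g, hg⟩ := U.subtype.exists_leftInverse_of_injective (Submodule.ker_subtype U)
  obtain ⟨N, w, hw⟩ := h
  refine ⟨N, fun j => g (w j), fun t => ?_⟩
  have : γ t = g (γ t : W) := (LinearMap.congr_fun hg (γ t)).symm
  have hw' : (γ t : W) = _ := hw t
  rw [this, hw', map_sum]
  simp only [map_smul]

/-- The segment of matrices between the identity and `A`. -/
def fam (A : Matrix (Fin 2) (Fin 2) ℂ) (t : ℂ) : Matrix (Fin 2) (Fin 2) ℂ := 1 + t • (A - 1)

/-- Substitution of the whole family of affine maps between the identity and `z ↦ A z + b`. -/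
noncomputable def tau (A : Matrix (Fin 2) (Fin 2) ℂ) (b : Fin 2 → ℂ) :
    Poly →ₐ[ℂ] Polynomial Poly :=
  aeval (fun i => Polynomial.C (X i) + Polynomial.X * Polynomial.C (lin A b i - X i))

theorem lin_fam (A : Matrix (Fin 2) (Fin 2) ℂ) (b : Fin 2 → ℂ) (t : ℂ) (i : Fin 2) :
    lin (fam A t) (t • b) i = X i + C t * (lin A b i - X i) := by
  unfold lin fam
  fin_cases i <;>
    simp [Matrix.add_apply, Matrix.smul_apply, Matrix.sub_apply] <;> ring

theorem eval_tau (A : Matrix (Fin 2) (Fin 2) ℂ) (b : Fin 2 → ℂ) (t : ℂ) (P : Poly) :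
    (tau A b P).eval (C t : Poly) = sub (fam A t) (t • b) P := by
  unfold tau sub
  induction P using MvPolynomial.induction_on with
  | C c =>
    rw [← algebraMap_eq, AlgHom.commutes, AlgHom.commutes]
    show Polynomial.eval _ (Polynomial.C (algebraMap ℂ Poly c)) = _
    rw [Polynomial.eval_C]
  | add p q hp hq => rw [map_add, map_add, Polynomial.eval_add, hp, hq]
  | mul_X p i hp =>
    rw [map_mul, map_mul, Polynomial.eval_mul, hp, aeval_X, aeval_X, lin_fam]
    simp

/-- The entries of `fam A t` as polynomials in `t`. -/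
noncomputable def ent (A : Matrix (Fin 2) (Fin 2) ℂ) (i j : Fin 2) : Polynomial Poly :=
  Polynomial.C (C ((1 : Matrix (Fin 2) (Fin 2) ℂ) i j)) +
    Polynomial.X * Polynomial.C (C ((A - 1) i j))

theorem eval_ent (A : Matrix (Fin 2) (Fin 2) ℂ) (i j : Fin 2) (t : ℂ) :
    (ent A i j).eval (C t : Poly) = C (fam A t i j) := by
  unfold ent fam
  simp only [Polynomial.eval_add, Polynomial.eval_C, Polynomial.eval_mul, Polynomial.eval_X,
    Matrix.add_apply, Matrix.smul_apply, smul_eq_mul, C_add, C_mul]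

theorem isPolyCurve_pull (d : ℕ) (A : Matrix (Fin 2) (Fin 2) ℂ) (b : Fin 2 → ℂ) (ω : forms d) :
    IsPolyCurve fun t => pullForms d (fam A t) (t • b) ω := by
  apply isPolyCurve_subtype
  have h := isPolyCurve_pair
    (ent A 1 1 * tau A b (ω : Form).1 - ent A 0 1 * tau A b (ω : Form).2)
    (ent A 0 0 * tau A b (ω : Form).2 - ent A 1 0 * tau A b (ω : Form).1)
  obtain ⟨N, w, hw⟩ := h
  refine ⟨N, w, fun t => ?_⟩
  rw [← hw t]
  simp only [Polynomial.eval_sub, Polynomial.eval_mul, eval_ent, eval_tau, ← smul_eq_C_mul]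
  rfl

theorem finite_det_fam (A : Matrix (Fin 2) (Fin 2) ℂ) : {t : ℂ | (fam A t).det = 0}.Finite := by
  let R : Polynomial ℂ := (1 + Polynomial.X * Polynomial.C ((A - 1) 0 0)) *
      (1 + Polynomial.X * Polynomial.C ((A - 1) 1 1)) -
      Polynomial.X * Polynomial.C ((A - 1) 0 1) * (Polynomial.X * Polynomial.C ((A - 1) 1 0))
  have hR : ∀ t, R.eval t = (fam A t).det := by
    intro t
    rw [Matrix.det_fin_two]
    simp only [R, fam, Polynomial.eval_sub, Polynomial.eval_mul, Polynomial.eval_add,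
      Polynomial.eval_one, Polynomial.eval_X, Polynomial.eval_C, Matrix.add_apply,
      Matrix.smul_apply, smul_eq_mul, Matrix.one_apply_eq]
    simp
  have hR0 : R ≠ 0 := by
    intro h
    have := hR 0
    rw [h] at this
    simp [fam] at this
  refine (Polynomial.finite_setOfPred_isRoot hR0).subset fun t ht => ?_
  show R.eval t = 0
  rw [hR t]; exact ht

theorem pullForms_one (d : ℕ) : pullForms d 1 0 = LinearMap.id := by
  have h : ∀ P : Poly, sub 1 0 P = P := by
    intro P
    apply MvPolynomial.funext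
    intro z
    rw [eval_sub, Matrix.one_mulVec, add_zero]
  ext ω
  · show coeff _ ((1 : Matrix (Fin 2) (Fin 2) ℂ) 1 1 • sub 1 0 _ -
      (1 : Matrix (Fin 2) (Fin 2) ℂ) 0 1 • sub 1 0 _) = _
    rw [h, h]; simp
  · show coeff _ ((1 : Matrix (Fin 2) (Fin 2) ℂ) 0 0 • sub 1 0 _ -
      (1 : Matrix (Fin 2) (Fin 2) ℂ) 1 0 • sub 1 0 _) = _
    rw [h, h]; simp

/-- Every irreducible component of the center variety is invariant under affine maps. -/
theorem component_affine (d : ℕ) {Z : Set (Fol d)} (hZ : IsComponent (centerVariety d) Z)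
    (A : Matrix (Fin 2) (Fin 2) ℂ) (b : Fin 2 → ℂ) (hA : A.det ≠ 0) (x : Fol d) (hx : x ∈ Z) :
    Projectivization.map (pullForms d A b) (pullForms_injective d A b hA) x ∈ Z := by
  have h1 : fam A 1 = A := by unfold fam; simp
  have h0 : fam A 0 = 1 := by unfold fam; simp
  have h := component_invariant (isAlgebraic_zariskiClosure (centerSet d)) hZ
    (fun t => pullForms d (fam A t) (t • b)) {t : ℂ | (fam A t).det = 0} (finite_det_fam A)
    (fun t ht => pullForms_injective d _ _ ht) (isPolyCurve_pull d A b) 0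
    (by show ¬ (fam A 0).det = 0; rw [h0]; simp)
    (by show pullForms d (fam A 0) ((0 : ℂ) • b) = _; rw [h0, zero_smul, pullForms_one])
    (fun t ht y hy => map_centerVariety d _ _ ht y hy) 1
    (by show ¬ (fam A 1).det = 0; rw [h1]; exact hA) x hx
  induction x using Projectivization.ind with
  | h v hv =>
    rw [Projectivization.map_mk] at h ⊢
    simp only [h1, one_smul] at h
    exact h

theorem component_affine_mk (d : ℕ) {Z : Set (Fol d)} (hZ : IsComponent (centerVariety d) Z)
    (A : Matrix (Fin 2) (Fin 2) ℂ) (b : Fin 2 → ℂ) (hA : A.det ≠ 0) (ω : forms d) (h : ω ≠ 0)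
    (hx : Projectivization.mk ℂ ω h ∈ Z) (η : forms d) (hη : η ≠ 0) (κ : ℂ)
    (hκ : κ • η = pullForms d A b ω) : Projectivization.mk ℂ η hη ∈ Z := by
  have h1 := component_affine d hZ A b hA _ hx
  rw [Projectivization.map_mk] at h1
  have h2 : Projectivization.mk ℂ η hη = Projectivization.mk ℂ (pullForms d A b ω)
      ((pullForms_injective d A b hA).ne_iff' (map_zero _) |>.mpr h) := by
    rw [Projectivization.mk_eq_mk_iff']
    have hκ0 : κ ≠ 0 := by
      rintro rfl
      rw [zero_smul] at hκ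
      exact h (pullForms_injective d A b hA (by rw [← hκ, map_zero]))
    exact ⟨κ⁻¹, by rw [← hκ, smul_smul, inv_mul_cancel₀ hκ0, one_smul]⟩
  rw [h2]
  exact h1


/-! ### Blowing down to the linear part at a center -/

/-- Substitution of all homotheties with centre `p`. -/
noncomputable def hom (p : Fin 2 → ℂ) : Poly →ₐ[ℂ] Polynomial Poly :=
  aeval (fun i => Polynomial.C (C (p i)) + Polynomial.X * Polynomial.C (X i - C (p i)))

theorem eval_hom (p : Fin 2 → ℂ) (s : ℂ) (P : Poly) :
    (hom p P).eval (C s : Poly) =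
      sub (s • (1 : Matrix (Fin 2) (Fin 2) ℂ)) ((1 - s) • p) P := by
  unfold hom sub
  induction P using MvPolynomial.induction_on with
  | C c =>
    rw [← algebraMap_eq, AlgHom.commutes, AlgHom.commutes]
    show Polynomial.eval _ (Polynomial.C (algebraMap ℂ Poly c)) = _
    rw [Polynomial.eval_C]
  | add p q hp hq => rw [map_add, map_add, Polynomial.eval_add, hp, hq]
  | mul_X q i hp =>
    rw [map_mul, map_mul, Polynomial.eval_mul, hp, aeval_X, aeval_X]
    congr 1
    unfold lin
    fin_cases i <;> simp <;> ring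

theorem hom_coeff_zero (p : Fin 2 → ℂ) (P : Poly) : (hom p P).coeff 0 = C (eval p P) := by
  unfold hom
  induction P using MvPolynomial.induction_on with
  | C c =>
    rw [← algebraMap_eq, AlgHom.commutes]
    show Polynomial.coeff (Polynomial.C (algebraMap ℂ Poly c)) 0 = _
    rw [Polynomial.coeff_C_zero]
    simp
  | add p q hp hq => rw [map_add, map_add, Polynomial.coeff_add, hp, hq, C_add]
  | mul_X q i hp =>
    rw [map_mul, map_mul, Polynomial.mul_coeff_zero, hp, aeval_X, eval_X, C_mul]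
    simp

theorem hom_coeff_one (p : Fin 2 → ℂ) (P : Poly) : (hom p P).coeff 1 =
    C (eval p (pderiv 0 P)) * (X 0 - C (p 0)) + C (eval p (pderiv 1 P)) * (X 1 - C (p 1)) := by
  induction P using MvPolynomial.induction_on with
  | C c =>
    have : hom p (C c) = Polynomial.C (C c) := by
      unfold hom
      rw [← algebraMap_eq, AlgHom.commutes]
      rfl
    rw [this, Polynomial.coeff_C]
    simp
  | add f g hf hg =>
    rw [map_add, Polynomial.coeff_add, hf, hg]
    simp only [map_add, C_add]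
    ring
  | mul_X q i hq =>
    rw [map_mul, Polynomial.mul_coeff_one, hq, hom_coeff_zero]
    have h1 : hom p (X i) =
        Polynomial.C (C (p i)) + Polynomial.X * Polynomial.C (X i - C (p i)) := by
      unfold hom; rw [aeval_X]
    rw [h1]
    simp only [Polynomial.coeff_add, Polynomial.coeff_C_zero, Polynomial.mul_coeff_zero,
      Polynomial.coeff_X_zero, zero_mul, add_zero, Derivation.leibniz, pderiv_X, smul_eq_mul,
      map_add, map_mul, eval_X, C_add, C_mul, Polynomial.mul_coeff_one, Polynomial.coeff_X_one,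
      one_mul]
    rw [Polynomial.coeff_C_of_ne_zero one_ne_zero]
    fin_cases i <;> simp <;> ring

/-- The linear part of a form at the point `p`. -/
noncomputable def linPart (p : Fin 2 → ℂ) (ω : Form) : Form :=
  (C (eval p (pderiv 0 ω.1)) * (X 0 - C (p 0)) + C (eval p (pderiv 1 ω.1)) * (X 1 - C (p 1)),
    C (eval p (pderiv 0 ω.2)) * (X 0 - C (p 0)) + C (eval p (pderiv 1 ω.2)) * (X 1 - C (p 1)))

theorem linPart_mem {d : ℕ} (hd : 1 ≤ d) (p : Fin 2 → ℂ) (ω : Form) : linPart p ω ∈ forms d := by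
  have h : ∀ α β : ℂ, (C α * (X 0 - C (p 0)) + C β * (X 1 - C (p 1)) : Poly) ∈
      restrictTotalDegree (Fin 2) ℂ d := by
    intro α β
    have h1 : ∀ i : Fin 2, (X i - C (p i) : Poly) ∈ restrictTotalDegree (Fin 2) ℂ d := by
      intro i
      refine Submodule.sub_mem _ ?_ ?_
      · rw [mem_restrictTotalDegree, totalDegree_X]; exact hd
      · rw [mem_restrictTotalDegree, totalDegree_C]; exact Nat.zero_le _
    rw [← smul_eq_C_mul, ← smul_eq_C_mul]
    exact Submodule.add_mem _ (Submodule.smul_mem _ _ (h1 0)) (Submodule.smul_mem _ _ (h1 1))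
  exact ⟨h _ _, h _ _⟩

theorem linPart_ne_zero (p : Fin 2 → ℂ) (ω : Form)
    (h : eval p (pderiv 0 ω.1) * eval p (pderiv 1 ω.2)
      - eval p (pderiv 1 ω.1) * eval p (pderiv 0 ω.2) ≠ 0) : linPart p ω ≠ 0 := by
  intro h0
  have h1 : C (eval p (pderiv 0 ω.1)) * (X 0 - C (p 0)) +
    C (eval p (pderiv 1 ω.1)) * (X 1 - C (p 1)) = (0 : Poly) := congrArg Prod.fst h0
  have k0 := congrArg (eval (p + Pi.single 0 1)) h1
  have k1 := congrArg (eval (p + Pi.single 1 1)) h1
  simp at k0 k1
  apply h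
  rw [k0, k1]; ring

/-- The classes of the linear parts at the centers of the members of a component belong to the
component. -/
theorem component_linPart (d : ℕ) (hd : 1 ≤ d) {Z : Set (Fol d)}
    (hZ : IsComponent (centerVariety d) Z) (ω : forms d) (h : ω ≠ 0)
    (hx : Projectivization.mk ℂ ω h ∈ Z) (p : Fin 2 → ℂ) (hp1 : eval p (ω : Form).1 = 0)
    (hp2 : eval p (ω : Form).2 = 0) (hne : linPart p (ω : Form) ≠ 0) :
    Projectivization.mk ℂ (⟨linPart p (ω : Form), linPart_mem hd p _⟩ : forms d)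
      (fun h0 => hne (congrArg Subtype.val h0)) ∈ Z := by
  set R := (hom p (ω : Form).1).divX with hR
  set S := (hom p (ω : Form).2).divX with hS
  have eR : ∀ s : ℂ, sub (s • (1 : Matrix (Fin 2) (Fin 2) ℂ)) ((1 - s) • p) (ω : Form).1 =
      C s * R.eval (C s : Poly) := by
    intro s
    rw [← eval_hom]
    conv_lhs => rw [← Polynomial.divX_mul_X_add (hom p (ω : Form).1)]
    rw [hom_coeff_zero, hp1]
    simp [mul_comm]
    exact Or.inl rfl
  have eS : ∀ s : ℂ, sub (s • (1 : Matrix (Fin 2) (Fin 2) ℂ)) ((1 - s) • p) (ω : Form).2 =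
      C s * S.eval (C s : Poly) := by
    intro s
    rw [← eval_hom]
    conv_lhs => rw [← Polynomial.divX_mul_X_add (hom p (ω : Form).2)]
    rw [hom_coeff_zero, hp2]
    simp [mul_comm]
    exact Or.inl rfl
  have e0 : ((R.eval (C 0 : Poly), S.eval (C 0 : Poly)) : Form) = linPart p (ω : Form) := by
    rw [C_0, ← Polynomial.coeff_zero_eq_eval_zero, ← Polynomial.coeff_zero_eq_eval_zero, hR, hS,
      Polynomial.coeff_divX, Polynomial.coeff_divX, hom_coeff_one, hom_coeff_one]
    rfl
  have epull : ∀ s : ℂ, pull (s • (1 : Matrix (Fin 2) (Fin 2) ℂ)) ((1 - s) • p) (ω : Form) =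
      (s * s) • ((R.eval (C s : Poly), S.eval (C s : Poly)) : Form) := by
    intro s
    ext1
    · show (s • (1 : Matrix (Fin 2) (Fin 2) ℂ)) 1 1 • sub _ _ (ω : Form).1 -
        (s • (1 : Matrix (Fin 2) (Fin 2) ℂ)) 0 1 • sub _ _ (ω : Form).2 =
          (s * s) • R.eval (C s : Poly)
      rw [eR, eS]
      simp [smul_eq_C_mul, mul_assoc]
    · show (s • (1 : Matrix (Fin 2) (Fin 2) ℂ)) 0 0 • sub _ _ (ω : Form).2 -
        (s • (1 : Matrix (Fin 2) (Fin 2) ℂ)) 1 0 • sub _ _ (ω : Form).1 =
          (s * s) • S.eval (C s : Poly)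
      rw [eR, eS]
      simp [smul_eq_C_mul, mul_assoc]
  have hmem : ∀ s : ℂ, ((R.eval (C s : Poly), S.eval (C s : Poly)) : Form) ∈ forms d := by
    intro s
    rcases eq_or_ne s 0 with rfl | hs
    · rw [e0]; exact linPart_mem hd p _
    · rw [← Submodule.smul_mem_iff _ (mul_ne_zero hs hs), ← epull]
      exact pull_mem _ _ _ ω.2
  let γ : ℂ → forms d := fun s => ⟨_, hmem s⟩
  have hγ : IsPolyCurve γ := isPolyCurve_subtype _ γ (isPolyCurve_pair R S)
  have hpull : ∀ s : ℂ, pullForms d (s • (1 : Matrix (Fin 2) (Fin 2) ℂ)) ((1 - s) • p) ω =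
      (s * s) • γ s := fun s => Subtype.ext (epull s)
  have hdet : ∀ s : ℂ, s ≠ 0 → (s • (1 : Matrix (Fin 2) (Fin 2) ℂ)).det ≠ 0 := by
    intro s hs
    rw [Matrix.det_smul, Matrix.det_one, mul_one]
    exact pow_ne_zero _ hs
  have hγ0 : γ 0 = ⟨linPart p (ω : Form), linPart_mem hd p _⟩ := Subtype.ext e0
  have hγne : ∀ s : ℂ, s ≠ 0 → γ s ≠ 0 := by
    intro s hs h0
    have := hpull s
    rw [h0, smul_zero] at this
    exact h (pullForms_injective d _ _ (hdet s hs) (by rw [this, map_zero]))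
  have hfin := curve_mem hγ hZ.2.1.1 {0}ᶜ (Set.finite_singleton (0 : ℂ)).infinite_compl
    (fun s hs => ⟨hγne s hs, component_affine_mk d hZ _ ((1 - s) • p) (hdet s hs) ω h hx (γ s)
      (hγne s hs) (s * s) (hpull s).symm⟩) 0
    (by rw [hγ0]; exact fun h0 => hne (congrArg Subtype.val h0))
  simp only [hγ0] at hfin
  exact hfin


/-! ### Normal form of the linear part -/

/-- A traceless `2 × 2` matrix `(α, β; γ, -α)` with nonzero determinant is diagonalizable. -/
theorem exists_diagonalizing (α β γ : ℂ) (h : α * α + β * γ ≠ 0) :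
    ∃ (A : Matrix (Fin 2) (Fin 2) ℂ) (lam : ℂ), A.det ≠ 0 ∧ lam ≠ 0 ∧
      α * A 0 0 + β * A 1 0 = lam * A 0 0 ∧ γ * A 0 0 - α * A 1 0 = lam * A 1 0 ∧
      α * A 0 1 + β * A 1 1 = -lam * A 0 1 ∧ γ * A 0 1 - α * A 1 1 = -lam * A 1 1 := by
  obtain ⟨lam, hlam⟩ := IsAlgClosed.exists_eq_mul_self (α * α + β * γ)
  have hl0 : lam ≠ 0 := by
    rintro rfl
    exact h (by rw [hlam, mul_zero])
  by_cases hβ : β = 0
  · by_cases hγ : γ = 0
    · refine ⟨1, α, by simp, ?_, ?_, ?_, ?_, ?_⟩
      · rintro rfl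
        apply h
        rw [hβ]; ring
      · simp [hβ]
      · simp [hγ]
      · simp [hβ]
      · simp [hγ]
    · refine ⟨!![lam + α, -lam + α; γ, γ], lam, ?_, hl0, ?_, ?_, ?_, ?_⟩
      · rw [Matrix.det_fin_two_of]
        have : (lam + α) * γ - (-lam + α) * γ = 2 * lam * γ := by ring
        rw [this]
        exact mul_ne_zero (mul_ne_zero two_ne_zero hl0) hγ
      · simp only [Matrix.of_apply, Matrix.cons_val', Matrix.cons_val_zero, Matrix.cons_val_one,
          Matrix.cons_val_fin_one]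
        linear_combination hlam
      · simp only [Matrix.of_apply, Matrix.cons_val', Matrix.cons_val_zero, Matrix.cons_val_one,
          Matrix.cons_val_fin_one]
        ring
      · simp only [Matrix.of_apply, Matrix.cons_val', Matrix.cons_val_zero, Matrix.cons_val_one,
          Matrix.cons_val_fin_one]
        linear_combination hlam
      · simp only [Matrix.of_apply, Matrix.cons_val', Matrix.cons_val_zero, Matrix.cons_val_one,
          Matrix.cons_val_fin_one]
        ring
  · refine ⟨!![β, β; lam - α, -lam - α], lam, ?_, hl0, ?_, ?_, ?_, ?_⟩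
    · rw [Matrix.det_fin_two_of]
      have : β * (-lam - α) - β * (lam - α) = -(2 * lam * β) := by ring
      rw [this]
      exact neg_ne_zero.mpr (mul_ne_zero (mul_ne_zero two_ne_zero hl0) hβ)
    · simp only [Matrix.of_apply, Matrix.cons_val', Matrix.cons_val_zero, Matrix.cons_val_one,
        Matrix.cons_val_fin_one]
      ring
    · simp only [Matrix.of_apply, Matrix.cons_val', Matrix.cons_val_zero, Matrix.cons_val_one,
        Matrix.cons_val_fin_one]
      linear_combination hlam
    · simp only [Matrix.of_apply, Matrix.cons_val', Matrix.cons_val_zero, Matrix.cons_val_one,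
        Matrix.cons_val_fin_one]
      ring
    · simp only [Matrix.of_apply, Matrix.cons_val', Matrix.cons_val_zero, Matrix.cons_val_one,
        Matrix.cons_val_fin_one]
      linear_combination hlam

theorem diff_xy : diff (X 0 * X 1) = ((X 0, -X 1) : Form) := by
  unfold diff
  ext1
  · simp [Derivation.leibniz, pderiv_X]
  · simp [Derivation.leibniz, pderiv_X]

theorem xy_mem {d : ℕ} (hd : 1 ≤ d) : diff (X 0 * X 1) ∈ forms d := by
  rw [diff_xy]
  have h : ∀ i : Fin 2, (X i : Poly) ∈ restrictTotalDegree (Fin 2) ℂ d := by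
    intro i
    rw [mem_restrictTotalDegree, totalDegree_X]; exact hd
  exact ⟨h 0, Submodule.neg_mem _ (h 1)⟩

theorem xy_ne_zero : diff (X 0 * X 1) ≠ 0 := by
  rw [diff_xy]
  intro h
  exact X_ne_zero (R := ℂ) (0 : Fin 2) (congrArg Prod.fst h)

theorem pull_linPart (p : Fin 2 → ℂ) (ω : Form) (A : Matrix (Fin 2) (Fin 2) ℂ) (lam : ℂ)
    (htr : eval p (pderiv 0 ω.1) + eval p (pderiv 1 ω.2) = 0)
    (h1 : eval p (pderiv 0 ω.1) * A 0 0 + eval p (pderiv 1 ω.1) * A 1 0 = lam * A 0 0)
    (h2 : eval p (pderiv 0 ω.2) * A 0 0 - eval p (pderiv 0 ω.1) * A 1 0 = lam * A 1 0)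
    (h3 : eval p (pderiv 0 ω.1) * A 0 1 + eval p (pderiv 1 ω.1) * A 1 1 = -lam * A 0 1)
    (h4 : eval p (pderiv 0 ω.2) * A 0 1 - eval p (pderiv 0 ω.1) * A 1 1 = -lam * A 1 1) :
    pull A p (linPart p ω) = (A.det * lam) • diff (X 0 * X 1) := by
  have htr' : eval p (pderiv 1 ω.2) = -eval p (pderiv 0 ω.1) := by linear_combination htr
  rw [diff_xy]
  unfold linPart
  rw [htr']
  generalize eval p (pderiv 0 ω.1) = α at *
  generalize eval p (pderiv 1 ω.1) = β at *
  generalize eval p (pderiv 0 ω.2) = γ at *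
  have k1 : (C α * C (A 0 0) + C β * C (A 1 0) : Poly) = C lam * C (A 0 0) := by
    simp only [← C_mul, ← C_add]; rw [h1]
  have k2 : (C γ * C (A 0 0) - C α * C (A 1 0) : Poly) = C lam * C (A 1 0) := by
    simp only [← C_mul, ← C_sub]; rw [h2]
  have k3 : (C α * C (A 0 1) + C β * C (A 1 1) : Poly) = -C lam * C (A 0 1) := by
    simp only [← C_mul, ← C_add, ← C_neg]; rw [h3]
  have k4 : (C γ * C (A 0 1) - C α * C (A 1 1) : Poly) = -C lam * C (A 1 1) := by
    simp only [← C_mul, ← C_sub, ← C_neg]; rw [h4]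
  have s0 : sub A p (X 0) = C (A 0 0) * X 0 + C (A 0 1) * X 1 + C (p 0) := by
    unfold sub; rw [aeval_X]; rfl
  have s1 : sub A p (X 1) = C (A 1 0) * X 0 + C (A 1 1) * X 1 + C (p 1) := by
    unfold sub; rw [aeval_X]; rfl
  have sC : ∀ c : ℂ, sub A p (C c) = C c := by
    intro c
    rw [← algebraMap_eq, AlgHom.commutes]
  rw [Matrix.det_fin_two]
  ext1
  · show A 1 1 • sub A p (C α * (X 0 - C (p 0)) + C β * (X 1 - C (p 1))) -
      A 0 1 • sub A p (C γ * (X 0 - C (p 0)) + C (-α) * (X 1 - C (p 1))) =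
      ((A 0 0 * A 1 1 - A 0 1 * A 1 0) * lam) • X 0
    simp only [map_add, map_mul, map_sub, map_neg, s0, s1, sC, smul_eq_C_mul, C_mul, C_sub, C_neg]
    linear_combination (C (A 1 1) * X 0) * k1 + (C (A 1 1) * X 1) * k3 -
      (C (A 0 1) * X 0) * k2 - (C (A 0 1) * X 1) * k4
  · show A 0 0 • sub A p (C γ * (X 0 - C (p 0)) + C (-α) * (X 1 - C (p 1))) -
      A 1 0 • sub A p (C α * (X 0 - C (p 0)) + C β * (X 1 - C (p 1))) =
      ((A 0 0 * A 1 1 - A 0 1 * A 1 0) * lam) • (-X 1)
    simp only [map_add, map_mul, map_sub, map_neg, s0, s1, sC, smul_eq_C_mul, C_mul, C_sub, C_neg]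
    linear_combination (C (A 0 0) * X 0) * k2 + (C (A 0 0) * X 1) * k4 -
      (C (A 1 0) * X 0) * k1 - (C (A 1 0) * X 1) * k3

/-- The class of `d(xy)`. -/
noncomputable def hyperbolic (d : ℕ) (hd : 1 ≤ d) : Fol d :=
  Projectivization.mk ℂ (⟨diff (X 0 * X 1), xy_mem hd⟩ : forms d)
    (fun h => xy_ne_zero (congrArg Subtype.val h))

theorem hyperbolic_mem_hamiltonian (d : ℕ) (hd : 1 ≤ d) : hyperbolic d hd ∈ hamiltonian d := by
  refine ⟨X 0 * X 1, ?_, _, _, rfl, rfl⟩
  refine (totalDegree_mul _ _).trans ?_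
  rw [totalDegree_X, totalDegree_X]
  omega

instance finite_forms (d : ℕ) : Module.Finite ℂ (forms d) := by
  have h : (restrictTotalDegree (Fin 2) ℂ d).FG := Module.Finite.iff_fg.mp inferInstance
  exact Module.Finite.iff_fg.mpr (h.prod h)

/-- Every irreducible component of the center variety contains the class of `d(xy)`. -/
theorem hyperbolic_mem_component (d : ℕ) (hd : 1 ≤ d) {Z : Set (Fol d)}
    (hZ : IsComponent (centerVariety d) Z) : hyperbolic d hd ∈ Z := by
  obtain ⟨x, hxZ, hx⟩ := component_meets hZ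
  obtain ⟨ω, h, rfl, -, -, p, hp⟩ := hx
  have hne := linPart_ne_zero p (ω : Form) hp.reduced
  have h1 := component_linPart d hd hZ ω h hxZ p hp.zero_fst hp.zero_snd hne
  have htr := hp.trace_zero
  obtain ⟨A, lam, hA, hlam, k1, k2, k3, k4⟩ := exists_diagonalizing
    (eval p (pderiv 0 (ω : Form).1)) (eval p (pderiv 1 (ω : Form).1))
    (eval p (pderiv 0 (ω : Form).2)) (by
      intro h0
      apply hp.reduced
      have : eval p (pderiv 1 (ω : Form).2) = -eval p (pderiv 0 (ω : Form).1) := by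
        linear_combination htr
      rw [this]
      linear_combination -h0)
  refine component_affine_mk d hZ A p hA _ _ h1 _ _ (A.det * lam) ?_
  apply Subtype.ext
  exact (pull_linPart p (ω : Form) A lam htr k1 k2 k3 k4).symm


/-! ### Hamiltonian foliations with a polynomial of degree exactly `d + 1` -/

/-- Components are stable under all affine maps, also the non-invertible ones, as long as the
pulled back form is not zero. -/
theorem component_affine_all (d : ℕ) {Z : Set (Fol d)} (hZ : IsComponent (centerVariety d) Z)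
    (A : Matrix (Fin 2) (Fin 2) ℂ) (b : Fin 2 → ℂ) (ω : forms d) (h : ω ≠ 0)
    (hx : Projectivization.mk ℂ ω h ∈ Z) (hne : pullForms d A b ω ≠ 0) :
    Projectivization.mk ℂ (pullForms d A b ω) hne ∈ Z := by
  have h1 : fam A 1 = A := by unfold fam; simp
  have hne' : pullForms d (fam A 1) ((1 : ℂ) • b) ω ≠ 0 := by rw [h1, one_smul]; exact hne
  have hfin := curve_mem (isPolyCurve_pull d A b ω) hZ.2.1.1 {t : ℂ | (fam A t).det = 0}ᶜ
    (finite_det_fam A).infinite_compl (fun t ht => by
      have h0 : pullForms d (fam A t) (t • b) ω ≠ 0 :=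
        fun h0 => h (pullForms_injective d _ _ ht (by rw [h0, map_zero]))
      exact ⟨h0, component_affine_mk d hZ (fam A t) (t • b) ht ω h hx _ h0 1 (one_smul _ _)⟩) 1
    hne'
  simp only [h1, one_smul] at hfin
  exact hfin

theorem coeff_line (v : Fin 2 → ℂ) (P : Poly) (n : ℕ) :
    (aeval (fun i => Polynomial.C (v i) * Polynomial.X) P : Polynomial ℂ).coeff n =
      eval v (homogeneousComponent n P) := by
  induction P using MvPolynomial.induction_on' with
  | monomial m c =>
    have h1 : (aeval (fun i => Polynomial.C (v i) * Polynomial.X) (monomial m c) :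
        Polynomial ℂ) = Polynomial.C (eval v (monomial m c)) * Polynomial.X ^ m.degree := by
      rw [aeval_monomial, eval_monomial]
      simp only [mul_pow]
      rw [Finsupp.prod_mul, Polynomial.C_mul, mul_assoc]
      congr 1
      congr 1
      · rw [Finsupp.prod, Finsupp.prod, map_prod]
        simp
      · rw [Finsupp.prod, Finset.prod_pow_eq_pow_sum]
        rfl
    rw [h1, Polynomial.coeff_C_mul_X_pow]
    by_cases hn : n = m.degree
    · rw [if_pos hn, homogeneousComponent_of_mem (isHomogeneous_monomial c hn.symm), if_pos rfl]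
    · rw [if_neg hn, homogeneousComponent_of_mem (isHomogeneous_monomial c rfl), if_neg hn,
        map_zero]
  | add p q hp hq => rw [map_add, map_add, map_add, Polynomial.coeff_add, hp, hq]

theorem sub_line (A : Matrix (Fin 2) (Fin 2) ℂ) (h0 : A 0 0 = 0) (h1 : A 1 0 = 0) (P : Poly) :
    sub A 0 P = Polynomial.aeval (X 1 : Poly)
      (aeval (fun i => Polynomial.C (A i 1) * Polynomial.X) P : Polynomial ℂ) := by
  have h : sub A 0 = (Polynomial.aeval (X 1 : Poly)).comp
      (aeval (fun i => Polynomial.C (A i 1) * Polynomial.X) : Poly →ₐ[ℂ] Polynomial ℂ) := by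
    apply MvPolynomial.algHom_ext
    intro i
    unfold sub
    rw [aeval_X, AlgHom.comp_apply, aeval_X]
    unfold lin
    fin_cases i <;> simp [h0, h1, algebraMap_eq]
  rw [h]; rfl

theorem coeff_aeval_X (F : Polynomial ℂ) (n : ℕ) :
    coeff (Finsupp.single 1 n) (Polynomial.aeval (X 1 : Poly) F) = F.coeff n := by
  induction F using Polynomial.induction_on' with
  | add p q hp hq => rw [map_add, coeff_add, Polynomial.coeff_add, hp, hq]
  | monomial k c =>
    rw [Polynomial.aeval_monomial, algebraMap_eq, coeff_C_mul, Polynomial.coeff_monomial,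
      coeff_X_pow]
    by_cases h : k = n
    · rw [if_pos h, if_pos (by rw [h]), mul_one]
    · rw [if_neg h, if_neg, mul_zero]
      intro h2
      exact h (by simpa using DFunLike.congr_fun h2 1)

theorem totalDegree_aeval_X_le (F : Polynomial ℂ) :
    (Polynomial.aeval (X 1 : Poly) F).totalDegree ≤ F.natDegree := by
  rw [Polynomial.aeval_eq_sum_range]
  refine (totalDegree_finsetSum _ _).trans (Finset.sup_le fun j hj => ?_)
  refine (totalDegree_smul_le _ _).trans ?_
  rw [totalDegree_X_pow]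
  exact Nat.lt_succ_iff.mp (Finset.mem_range.mp hj)

/-- An antiderivative. -/
theorem exists_antiderivative (r : Polynomial ℂ) (d : ℕ) (hr : r.natDegree ≤ d)
    (hrd : r.coeff d ≠ 0) : ∃ F : Polynomial ℂ, F.derivative = r ∧ F.natDegree = d + 1 := by
  refine ⟨∑ j ∈ Finset.range (d + 1), Polynomial.monomial (j + 1) (r.coeff j / (j + 1)), ?_, ?_⟩
  · rw [Polynomial.derivative_sum]
    conv_rhs => rw [Polynomial.as_sum_range' r (d + 1) (Nat.lt_succ_of_le hr)]
    refine Finset.sum_congr rfl fun j _ => ?_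
    rw [Polynomial.derivative_monomial]
    congr 1
    have : (j : ℂ) + 1 ≠ 0 := by exact_mod_cast Nat.succ_ne_zero j
    push_cast
    field_simp
  · have hc : (∑ j ∈ Finset.range (d + 1), Polynomial.monomial (j + 1)
        (r.coeff j / ((j : ℂ) + 1))).coeff (d + 1) = r.coeff d / (d + 1) := by
      rw [Polynomial.finsetSum_coeff, Finset.sum_eq_single d]
      · rw [Polynomial.coeff_monomial, if_pos rfl]
      · intro j _ hj
        rw [Polynomial.coeff_monomial, if_neg (fun h => hj (Nat.succ_injective h))]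
      · intro h
        exact absurd (Finset.mem_range.mpr (Nat.lt_succ_self d)) h
    apply le_antisymm
    · refine Polynomial.natDegree_sum_le_of_forall_le _ _ fun j hj => ?_
      refine (Polynomial.natDegree_monomial_le _).trans ?_
      have := Finset.mem_range.mp hj
      omega
    · apply Polynomial.le_natDegree_of_ne_zero
      rw [hc]
      refine div_ne_zero hrd ?_
      exact_mod_cast Nat.succ_ne_zero d

/-- A component containing a foliation whose part of degree `d` is not a multiple of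
`x dy - y dx` contains a Hamiltonian foliation `df` with `deg f = d + 1`. -/
theorem exact_degree (d : ℕ) {Z : Set (Fol d)} (hZ : IsComponent (centerVariety d) Z)
    (ω : forms d) (h : ω ≠ 0) (hx : Projectivization.mk ℂ ω h ∈ Z)
    (hg : X 1 * homogeneousComponent d (ω : Form).1 - X 0 * homogeneousComponent d (ω : Form).2
      ≠ 0) :
    ∃ f : Poly, f.totalDegree = d + 1 ∧ ∃ (η : forms d) (hη : η ≠ 0), (η : Form) = diff f ∧
      Projectivization.mk ℂ η hη ∈ Z := by
  -- a direction `v` in which the part of degree `d` is not radial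
  obtain ⟨v, hv⟩ : ∃ v : Fin 2 → ℂ, v 1 * eval v (homogeneousComponent d (ω : Form).1) -
      v 0 * eval v (homogeneousComponent d (ω : Form).2) ≠ 0 := by
    by_contra hcon
    push Not at hcon
    apply hg
    apply MvPolynomial.funext
    intro z
    rw [map_sub, map_mul, map_mul, eval_X, eval_X, hcon z, map_zero]
  let A : Matrix (Fin 2) (Fin 2) ℂ := !![0, v 0; 0, v 1]
  have a00 : A 0 0 = 0 := rfl
  have a10 : A 1 0 = 0 := rfl
  have a01 : A 0 1 = v 0 := rfl
  have a11 : A 1 1 = v 1 := rfl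
  let ρ : Poly →ₐ[ℂ] Polynomial ℂ := aeval (fun i => Polynomial.C (v i) * Polynomial.X)
  let r : Polynomial ℂ := Polynomial.C (v 1) * ρ (ω : Form).1 - Polynomial.C (v 0) * ρ (ω : Form).2
  have hcoeff : ∀ n, r.coeff n = v 1 * eval v (homogeneousComponent n (ω : Form).1) -
      v 0 * eval v (homogeneousComponent n (ω : Form).2) := by
    intro n
    show (Polynomial.C (v 1) * ρ (ω : Form).1 - Polynomial.C (v 0) * ρ (ω : Form).2).coeff n = _
    rw [Polynomial.coeff_sub, Polynomial.coeff_C_mul, Polynomial.coeff_C_mul]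
    rw [coeff_line, coeff_line]
  have hrd : r.coeff d ≠ 0 := by rw [hcoeff]; exact hv
  have hdeg : r.natDegree ≤ d := by
    rw [Polynomial.natDegree_le_iff_coeff_eq_zero]
    intro n hn
    have h1 := (mem_restrictTotalDegree _ _ _).mp ω.2.1
    have h2 := (mem_restrictTotalDegree _ _ _).mp ω.2.2
    rw [hcoeff, homogeneousComponent_eq_zero _ _ (lt_of_le_of_lt h1 hn),
      homogeneousComponent_eq_zero _ _ (lt_of_le_of_lt h2 hn), map_zero, mul_zero, mul_zero,
      sub_zero]
  obtain ⟨F, hF, hFd⟩ := exists_antiderivative r d hdeg hrd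
  have hAv : (fun i => Polynomial.C (A i 1) * Polynomial.X) =
      fun i => Polynomial.C (v i) * Polynomial.X := by
    funext i
    fin_cases i
    · show Polynomial.C (A 0 1) * _ = Polynomial.C (v 0) * _
      rw [a01]
    · show Polynomial.C (A 1 1) * _ = Polynomial.C (v 1) * _
      rw [a11]
  have hsub : ∀ P, sub A 0 P = Polynomial.aeval (X 1 : Poly) (ρ P) := by
    intro P
    rw [sub_line A a00 a10, hAv]
  have hpull : pull A 0 (ω : Form) = diff (Polynomial.aeval (X 1 : Poly) F) := by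
    unfold diff
    rw [Derivation.map_aeval, Derivation.map_aeval, hF, pderiv_X_self,
      pderiv_X_of_ne (show (1 : Fin 2) ≠ 0 by decide)]
    ext1
    · show A 1 1 • sub A 0 _ - A 0 1 • sub A 0 _ = _
      rw [hsub, hsub, a11, a01]
      simp only [r, map_sub, map_mul, Polynomial.aeval_C, algebraMap_eq, smul_eq_C_mul,
        smul_eq_mul, mul_one]
    · show A 0 0 • sub A 0 _ - A 1 0 • sub A 0 _ = _
      rw [a00, a10]
      simp
  have hne : pullForms d A 0 ω ≠ 0 := by
    intro h0
    have h1 : pull A 0 (ω : Form) = 0 := congrArg Subtype.val h0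
    have h2 : (pull A 0 (ω : Form)).1 = Polynomial.aeval (X 1 : Poly) r := by
      rw [hpull]
      unfold diff
      rw [Derivation.map_aeval, hF, pderiv_X_self, smul_eq_mul, mul_one]
    have h3 := coeff_aeval_X r d
    rw [← h2, h1] at h3
    exact hrd (by rw [← h3]; simp)
  refine ⟨Polynomial.aeval (X 1 : Poly) F, ?_, pullForms d A 0 ω, hne, hpull,
    component_affine_all d hZ A 0 ω h hx hne⟩
  apply le_antisymm
  · rw [← hFd]; exact totalDegree_aeval_X_le F
  · have h1 : coeff (Finsupp.single 1 (d + 1)) (Polynomial.aeval (X 1 : Poly) F) ≠ 0 := by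
      rw [coeff_aeval_X, ← hFd]
      intro h0
      have : F = 0 := Polynomial.leadingCoeff_eq_zero.mp h0
      rw [this] at hFd
      simp at hFd
    have h2 := le_totalDegree (mem_support_iff.mpr h1)
    rwa [Finsupp.sum_single_index rfl] at h2

/-- **Main result.**  Let `d ≥ 2` and let `Z` be an irreducible component of the center variety
`M(d)`.
(1) `Z` meets the set `L(d+1)` of Hamiltonian foliations.
(2) More precisely the class of `d(xy)`, which belongs to `L(d+1)`, lies in `Z`; so it lies in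
every irreducible component of `M(d)`.
(3) If `Z` contains a class `[P dy - Q dx]` with `y P_d - x Q_d ≠ 0`, where `P_d`, `Q_d` are the
homogeneous parts of degree `d` (that is, a foliation whose part of degree `d` is not a multiple
of `x dy - y dx`), then `Z` also contains the class of `df` for a polynomial `f` of degree exactly
`d + 1`. -/
theorem result (d : ℕ) (hd : 2 ≤ d) (Z : Set (Fol d)) (hZ : IsComponent (centerVariety d) Z) :
    (Z ∩ hamiltonian d).Nonempty ∧
    (∃ (ω : forms d) (h : ω ≠ 0), (ω : Form) = diff (X 0 * X 1) ∧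
      Projectivization.mk ℂ ω h ∈ Z ∩ hamiltonian d) ∧
    ((∃ (ω : forms d) (h : ω ≠ 0), Projectivization.mk ℂ ω h ∈ Z ∧
        X 1 * homogeneousComponent d (ω : Form).1
          - X 0 * homogeneousComponent d (ω : Form).2 ≠ 0) →
      ∃ f : Poly, f.totalDegree = d + 1 ∧ ∃ (η : forms d) (hη : η ≠ 0), (η : Form) = diff f ∧
        Projectivization.mk ℂ η hη ∈ Z) := by
  have hd1 : 1 ≤ d := by omega
  have hmem := hyperbolic_mem_component d hd1 hZ
  have hham := hyperbolic_mem_hamiltonian d hd1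
  refine ⟨⟨hyperbolic d hd1, hmem, hham⟩, ⟨_, _, rfl, hmem, hham⟩, ?_⟩
  rintro ⟨ω, h, hx, hg⟩
  exact exact_degree d hZ ω h hx hg

end Pool.Agent.Results.MP_9e47d4_ag.EveryComponentMeets
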